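import Pool.Agent.Q222.MI2.GP

/-!
# Project MI2, job FAC: assembly of the path
-/

set_option autoImplicit false
set_option linter.unusedSectionVars false

namespace Pool.Agent.Q222.MI2

open Finset Polynomial Q12.MI2

universe u v w

section

variable {K : Type u} [Field K] [CharP K 2] {ι₁ ι₂ κ : Type} [Fintype ι₁]
  [DecidableEq ι₁] [Fintype ι₂] [DecidableEq ι₂] [Fintype κ] [DecidableEq κ]

theorem addfun_expand (u : (ι₁ → ZMod 2) →+ K) :
    u = ∑ l, u (Pi.single l 1) • crd K l := by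
  refine AddMonoidHom.ext (fun w => ?_)
  rw [addfun_coord u w, AddMonoidHom.finsetSum_apply]
  refine Finset.sum_congr rfl (fun i _ => ?_)
  rw [mul_comm]
  rfl

theorem mat_mul (N N' : Module.End K ((ι₁ → ZMod 2) →+ K)) :
    mat (N * N') = mat N' * mat N := by
  ext i j
  rw [Matrix.mul_apply]
  show N (N' (crd K i)) (Pi.single j 1) = ∑ l, N' (crd K i) (Pi.single l 1) * N (crd K l) (Pi.single j 1)
  conv_lhs => rw [addfun_expand (N' (crd K i)), map_sum, AddMonoidHom.finsetSum_apply]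
  refine Finset.sum_congr rfl (fun l _ => ?_)
  rw [map_smul]
  rfl

theorem mat_one : mat (1 : Module.End K ((ι₁ → ZMod 2) →+ K)) = 1 := by
  ext i j
  show cst K (Pi.single j (1 : ZMod 2)) i = _
  rw [cst_single, Matrix.one_apply]

/-- the block matrix of an operator -/
def blk (ι₂ : Type) [DecidableEq ι₂] (N : Module.End K ((ι₁ → ZMod 2) →+ K)) :
    Matrix (ι₁ ⊕ ι₂) (ι₁ ⊕ ι₂) K := Matrix.fromBlocks (mat N) 0 0 1

theorem blk_mul (N N' : Module.End K ((ι₁ → ZMod 2) →+ K)) :
    blk ι₂ (N * N') = blk ι₂ N' * blk ι₂ N := by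
  unfold blk
  rw [Matrix.fromBlocks_multiply, mat_mul]
  simp

theorem blk_one : blk ι₂ (1 : Module.End K ((ι₁ → ZMod 2) →+ K)) = 1 := by
  unfold blk
  rw [mat_one, Matrix.fromBlocks_one]

theorem path_one {ι : Type} [Fintype ι] [DecidableEq ι] (b : ι → ι → κ → ℤ) :
    PathTo K b (1 : Matrix ι ι K) := by
  refine ⟨1, 1, fun x => by rw [Matrix.one_mulVec, Matrix.one_mulVec], ?_, ?_, ?_⟩
  · ext i j
    by_cases h : i = j
    · subst h; simp
    · simp [h]
  · ext i j
    by_cases h : i = j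
    · subst h; simp
    · simp [h]
  · ext i j
    by_cases h : i = j
    · subst h; simp
    · simp [h]

theorem path_inStab {ι : Type} [Fintype ι] [DecidableEq ι] (b : ι → ι → κ → ℤ)
    {M₁ : Matrix ι ι K} (h : PathTo K b M₁) : ∃ C₁, InStab b M₁ C₁ := by
  obtain ⟨M, C', hq, h0, hC0, h1⟩ := h
  refine ⟨C'.map (eval 1), fun x => ?_⟩
  have h2 := hq (fun i => C (x i))
  have h3 : (fun k => (evalRingHom (1 : K)) (qd b (M.mulVec (fun i => C (x i))) k))
      = fun k => (evalRingHom (1 : K)) (C'.mulVec (qd b (fun i => C (x i))) k) := by rw [h2]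
  rw [← qd_map] at h3
  have h4 : (fun i => (evalRingHom (1 : K)) (M.mulVec (fun i => C (x i)) i)) = M₁.mulVec x := by
    funext i
    rw [← h1]
    simp [Matrix.mulVec, dotProduct]
  rw [h4] at h3
  rw [h3]
  funext k
  have h5 : qd b (fun i => C (x i)) = fun k => C (qd b x k) := qd_map b C x
  rw [h5]
  simp [Matrix.mulVec, dotProduct]

/-- elementary factors are involutions -/
theorem trans_sq {V W V₀ : Type} [AddCommGroup V]
    [Fintype V] [AddCommGroup W] [AddCommGroup V₀] (T : Tor K V W V₀) (hB : BadFacts T)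
    {N : Module.End K (V →+ K)} (hN : T.Trans N) : N * N = 1 := by
  obtain ⟨c, a, hva, hN⟩ := hN
  have hlx : ∑ v, a v * ∑ w, a w * lam K T.β w v = 0 := by
    simp only [Finset.mul_sum]
    rw [← Finset.sum_product' (s := univ) (t := univ)
      (f := fun v w => a v * (a w * lam K T.β w v))]
    refine Finset.sum_involution (fun p _ => (p.2, p.1)) ?_ ?_ ?_ ?_
    · intro p _
      have h1 : lam K T.β p.2 p.1 = lam K T.β p.1 p.2 := by
        unfold lam
        rw [hB.sym]
      show a p.1 * (a p.2 * lam K T.β p.2 p.1) + a p.2 * (a p.1 * lam K T.β p.1 p.2) = 0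
      rw [h1]
      have h2 : a p.2 * (a p.1 * lam K T.β p.1 p.2) = a p.1 * (a p.2 * lam K T.β p.1 p.2) := by ring
      rw [h2]
      exact CharTwo.add_self_eq_zero _
    · intro p _ hp heq
      apply hp
      have h4 : p.2 = p.1 := congrArg Prod.fst heq
      have h5 : lam K T.β p.1 p.1 = 0 := by
        unfold lam
        rw [if_pos (hB.alt _)]
      rw [h4, h5, mul_zero, mul_zero]
    · intro p _
      exact Finset.mem_univ _
    · intro p _
      rfl
  refine LinearMap.ext (fun ζ => AddMonoidHom.ext (fun x => ?_))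
  show N (N ζ) x = ζ x
  rw [hN (N ζ) x, hN ζ x]
  have h1 : ∑ v, a v * N ζ v = ∑ v, a v * ζ v := by
    simp only [hN ζ, mul_add, Finset.sum_add_distrib]
    have h2 : ∑ v, a v * ((∑ w, a w * ζ w) * ∑ w, a w * lam K T.β w v)
        = (∑ w, a w * ζ w) * ∑ v, a v * ∑ w, a w * lam K T.β w v := by
      rw [Finset.mul_sum]
      refine Finset.sum_congr rfl (fun v _ => ?_)
      ring
    rw [h2, hlx, mul_zero, add_zero]
  rw [h1, add_assoc, CharTwo.add_self_eq_zero, add_zero]

/-- the closure of the elementary factors is closed under inverses -/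
theorem closure_inv {V W V₀ : Type} [AddCommGroup V]
    [Fintype V] [AddCommGroup W] [AddCommGroup V₀] (T : Tor K V W V₀) (hB : BadFacts T)
    {N : Module.End K (V →+ K)}
    (hN : N ∈ Submonoid.closure {N : Module.End K (V →+ K) | T.Trans N}) :
    ∃ N' ∈ Submonoid.closure {N : Module.End K (V →+ K) | T.Trans N}, N * N' = 1 := by
  induction hN using Submonoid.closure_induction with
  | mem x hx => exact ⟨x, Submonoid.subset_closure hx, trans_sq T hB hx⟩
  | one => exact ⟨1, Submonoid.one_mem _, one_mul 1⟩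
  | mul x y _ _ hx hy =>
    obtain ⟨x', hx', hxx⟩ := hx
    obtain ⟨y', hy', hyy⟩ := hy
    refine ⟨y' * x', Submonoid.mul_mem _ hy' hx', ?_⟩
    rw [mul_assoc, ← mul_assoc y, hyy, one_mul, hxx]

variable {b : (ι₁ ⊕ ι₂) → (ι₁ ⊕ ι₂) → κ → ℤ}
  {T : Tor K (ι₁ → ZMod 2) (κ → ZMod 2) (ι₁ ⊕ ι₂ → ZMod 2)}

theorem closure_path (hB : BadFacts T) (hb : CoordTor b T)
    {N : Module.End K ((ι₁ → ZMod 2) →+ K)}
    (hN : N ∈ Submonoid.closure {N : Module.End K ((ι₁ → ZMod 2) →+ K) | T.Trans N}) :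
    PathTo K b (blk ι₂ N) := by
  induction hN using Submonoid.closure_induction with
  | mem x hx => exact t_TP K ι₁ ι₂ κ b T hB hb x hx
  | one => rw [blk_one]; exact path_one b
  | mul x y _ _ hx hy =>
    rw [blk_mul]
    exact t_PM K _ κ b _ _ hy hx

/-- job FAC -/
theorem t_FAC : S_FAC.{u} := by
  intro K _ _ ι₁ ι₂ κ _ _ _ _ _ _ b T hB hb g N X Cc Dd C₁ hN hX hg hM
  have hfac : Matrix.fromBlocks (mat (1 + g)) 0 Cc Dd
      = blk ι₂ N * Matrix.fromBlocks (mat (1 + X)) 0 Cc Dd := by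
    unfold blk
    rw [Matrix.fromBlocks_multiply, hg, mat_mul]
    simp
  obtain ⟨N', hN', hNN⟩ := closure_inv T hB hN
  obtain ⟨C', hC'⟩ := path_inStab b (closure_path hB hb hN')
  have hF : Matrix.fromBlocks (mat (1 + X)) 0 Cc Dd
      = blk ι₂ N' * Matrix.fromBlocks (mat (1 + g)) 0 Cc Dd := by
    rw [hfac, ← mul_assoc, ← blk_mul, hNN, blk_one, one_mul]
  have hst : InStab b (Matrix.fromBlocks (mat (1 + X)) 0 Cc Dd) (C' * C₁) := by
    intro x
    rw [hF, ← Matrix.mulVec_mulVec, hC', hM, Matrix.mulVec_mulVec]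
  rw [hfac]
  exact t_PM K _ κ b _ _ (closure_path hB hb hN)
    (t_GP K ι₁ ι₂ κ b T hB hb X Cc Dd (C' * C₁) hX hst)

end

end Pool.Agent.Q222.MI2
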