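import Pool.Agent.Q12.MI2.Stm2

/-!
# Project MI2, job LNG: the theorem of Lang for `GL_n` in characteristic two
-/

set_option autoImplicit false

namespace Pool.Agent.Q222.MI2

open Finset Polynomial Q12.MI2

universe u v w

/-- the polynomials giving the coefficients of a fixed vector -/
noncomputable def fixPoly {L : Type*} [Field L] (a : ℕ → L) : ℕ → L[X]
  | 0 => C (a 0) * X ^ 2
  | (i + 1) => fixPoly a i ^ 2 + C (a (i + 1)) * X ^ 2

theorem fixPoly_dvd {L : Type*} [Field L] (a : ℕ → L) (i : ℕ) : X ^ 2 ∣ fixPoly a i := by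
  induction i with
  | zero => exact Dvd.intro_left _ rfl
  | succ i ih =>
    refine dvd_add ?_ (Dvd.intro_left _ rfl)
    exact dvd_pow ih two_ne_zero

theorem fixPoly_eq_zero {L : Type*} [Field L] (a : ℕ → L) (i : ℕ) (h : fixPoly a i = 0) :
    ∀ j ≤ i, a j = 0 := by
  induction i with
  | zero =>
    intro j hj
    have h0 : j = 0 := by omega
    subst h0
    rw [fixPoly, mul_eq_zero] at h
    rcases h with h | h
    · exact C_eq_zero.mp h
    · exact absurd h (pow_ne_zero 2 X_ne_zero)
  | succ i ih =>
    obtain ⟨q, hq⟩ := fixPoly_dvd a i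
    have h1 : a (i + 1) = 0 := by
      have h2 := congrArg (fun p => coeff p 2) h
      simp only [fixPoly, coeff_add, coeff_C_mul, coeff_X_pow, if_true, mul_one, coeff_zero] at h2
      rw [hq] at h2
      have h3 : (X ^ 2 * q : L[X]) ^ 2 = (q ^ 2) * X ^ 4 := by ring
      rw [h3, coeff_mul_X_pow'] at h2
      simpa using h2
    have h4 : fixPoly a i = 0 := by
      have h5 := h
      rw [fixPoly, h1, C_0, zero_mul, add_zero] at h5
      exact pow_eq_zero_iff two_ne_zero |>.mp h5
    intro j hj
    rcases Nat.lt_or_ge j (i + 1) with h6 | h6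
    · exact ih h4 j (by omega)
    · have h7 : j = i + 1 := by omega
      rw [h7]; exact h1

/-- a nonzero number reproduced by the last polynomial -/
theorem exists_fix {L : Type*} [Field L] [IsAlgClosed L] (a : ℕ → L) (m : ℕ)
    (h : ∃ j ≤ m, a j ≠ 0) : ∃ z : L, z ≠ 0 ∧ (fixPoly a m).eval z = z := by
  have hne : fixPoly a m ≠ 0 := by
    intro h0
    obtain ⟨j, hj, hj2⟩ := h
    exact hj2 (fixPoly_eq_zero a m h0 j hj)
  obtain ⟨q, hq⟩ := fixPoly_dvd a m
  have hq0 : q ≠ 0 := by
    rintro rfl
    exact hne (by rw [hq, mul_zero])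
  have hdeg : (X * q - 1 : L[X]).degree ≠ 0 := by
    have h1 : (X * q : L[X]).degree = q.natDegree + 1 := by
      rw [degree_mul, degree_X, degree_eq_natDegree hq0, add_comm]
    have h2 : (X * q - 1 : L[X]).degree = q.natDegree + 1 := by
      rw [degree_sub_eq_left_of_degree_lt, h1]
      rw [h1, degree_one]
      exact_mod_cast Nat.succ_pos _
    rw [h2]
    exact_mod_cast Nat.succ_ne_zero q.natDegree
  obtain ⟨z, hz⟩ := IsAlgClosed.exists_root _ hdeg
  have hz1 : z * q.eval z = 1 := by
    have := hz
    rw [IsRoot, eval_sub, eval_mul, eval_X, eval_one, sub_eq_zero] at this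
    exact this
  refine ⟨z, ?_, ?_⟩
  · rintro rfl
    simp at hz1
  · rw [hq, eval_mul, eval_pow, eval_X]
    calc z ^ 2 * q.eval z = z * (z * q.eval z) := by ring
      _ = z := by rw [hz1, mul_one]

section

variable {L : Type u} [Field L] [IsAlgClosed L] [CharP L 2]

theorem exists_fixed {E : Type v} [AddCommGroup E] [Module L E] [FiniteDimensional L E]
    [Nontrivial E] (φ : E →ₛₗ[frobenius L 2] E) (hφ : Function.Injective φ) :
    ∃ w : E, w ≠ 0 ∧ φ w = w := by
  obtain ⟨v, hv⟩ := exists_ne (0 : E)
  have hit : ∀ k : ℕ, φ^[k] v ≠ 0 := by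
    intro k
    induction k with
    | zero => simpa using hv
    | succ k ih =>
      rw [Function.iterate_succ_apply']
      intro h
      exact ih (hφ (by rw [h, map_zero]))
  -- the first dependence
  have hex : ∃ m : ℕ, ¬ LinearIndependent L (fun i : Fin m => φ^[(i : ℕ)] v) := by
    refine ⟨Module.finrank L E + 1, fun h => ?_⟩
    have := h.fintype_card_le_finrank
    simp at this
  classical
  obtain ⟨m, hm⟩ : ∃ m, Nat.find hex = m := ⟨_, rfl⟩
  have hm1 : ¬ LinearIndependent L (fun i : Fin m => φ^[(i : ℕ)] v) := by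
    rw [← hm]; exact Nat.find_spec hex
  rcases m with _ | _ | m
  · exact absurd (linearIndependent_empty_type) hm1
  · exfalso
    apply hm1
    have : Unique (Fin (0 + 1)) := inferInstanceAs (Unique (Fin 1))
    exact linearIndependent_unique_iff.mpr (hit _)
  · have hlt : m + 1 < Nat.find hex := by omega
    have hli : LinearIndependent L (fun i : Fin (m + 1) => φ^[(i : ℕ)] v) := by
      have := Nat.find_min hex hlt
      exact not_not.mp this
    rw [linearIndependent_finSucc'] at hm1
    have hinit : Fin.init (fun i : Fin (m + 1 + 1) => φ^[(i : ℕ)] v)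
        = (fun i : Fin (m + 1) => φ^[(i : ℕ)] v) := by
      funext i
      simp [Fin.init]
    rw [hinit] at hm1
    have hmem : φ^[m + 1] v ∈ Submodule.span L (Set.range (fun i : Fin (m + 1) => φ^[(i : ℕ)] v)) := by
      by_contra h
      exact hm1 ⟨hli, by simpa using h⟩
    rw [Submodule.mem_span_range_iff_exists_fun] at hmem
    obtain ⟨c, hc⟩ := hmem
    let a : ℕ → L := fun i => if h : i < m + 1 then c ⟨i, h⟩ else 0
    have hc' : ∑ i ∈ range (m + 1), a i • φ^[i] v = φ^[m + 1] v := by
      rw [← hc, Finset.sum_range]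
      refine Finset.sum_congr rfl (fun i _ => ?_)
      have h1 : a (i : ℕ) = c i := dif_pos i.2
      rw [h1]
    have hne : ∃ j ≤ m, a j ≠ 0 := by
      by_contra hcon
      push Not at hcon
      apply hit (m + 1)
      rw [← hc']
      refine Finset.sum_eq_zero (fun i hi => ?_)
      rw [hcon i (by have := Finset.mem_range.mp hi; omega), zero_smul]
    obtain ⟨z, hz0, hz⟩ := exists_fix a m hne
    let x : ℕ → L := fun i => (fixPoly a i).eval z
    have hx0 : x 0 = z ^ 2 * a 0 := by
      simp only [x, fixPoly, eval_mul, eval_C, eval_pow, eval_X]; ring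
    have hxs : ∀ i, x (i + 1) = x i ^ 2 + z ^ 2 * a (i + 1) := by
      intro i; simp only [x, fixPoly, eval_mul, eval_C, eval_pow, eval_X, eval_add]; ring
    have hxm : x m = z := hz
    refine ⟨∑ i ∈ range (m + 1), x i • φ^[i] v, ?_, ?_⟩
    · intro h0
      have h1 : ∑ i : Fin (m + 1), x i • φ^[(i : ℕ)] v = 0 := by
        rw [← Finset.sum_range (fun i => x i • φ^[i] v)]; exact h0
      have h2 := (Fintype.linearIndependent_iff.mp hli) (fun i => x i) h1 (Fin.last m)
      simp only [Fin.val_last] at h2
      rw [hxm] at h2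
      exact hz0 h2
    · rw [map_sum]
      have h1 : ∀ i, φ (x i • φ^[i] v) = x i ^ 2 • φ^[i + 1] v := by
        intro i
        rw [LinearMap.map_smulₛₗ, Function.iterate_succ_apply', frobenius_def]
      simp only [h1]
      rw [Finset.sum_range_succ, hxm, ← hc', Finset.smul_sum,
        Finset.sum_range_succ' (fun i => z ^ 2 • a i • φ^[i] v),
        Finset.sum_range_succ' (fun i => x i • φ^[i] v), ← add_assoc, ← Finset.sum_add_distrib, hx0]
      congr 1
      · refine Finset.sum_congr rfl (fun i _ => ?_)
        rw [hxs, add_smul, smul_smul]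
      · rw [smul_smul]

/-- the fixed vectors of an injective semilinear map span -/
theorem span_fixed (n : ℕ) : ∀ (E : Type v) [AddCommGroup E] [Module L E] [FiniteDimensional L E]
    (φ : E →ₛₗ[frobenius L 2] E) (_ : Function.Injective φ) (_ : Module.finrank L E = n),
    Submodule.span L {w : E | φ w = w} = ⊤ := by
  induction n with
  | zero =>
    intro E _ _ _ φ hφ hn
    have : Subsingleton E := Module.finrank_zero_iff.mp hn
    exact Subsingleton.elim _ _
  | succ n ih =>
    intro E _ _ _ φ hφ hn
    have : Nontrivial E := Module.nontrivial_of_finrank_pos (R := L) (by omega)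
    obtain ⟨w, hw, hfw⟩ := exists_fixed φ hφ
    let S : Submodule L E := Submodule.span L {w}
    have hS : S ≤ S.comap φ := by
      intro x hx
      obtain ⟨a, rfl⟩ := Submodule.mem_span_singleton.mp hx
      rw [Submodule.mem_comap, LinearMap.map_smulₛₗ, hfw]
      exact Submodule.smul_mem _ _ (Submodule.mem_span_singleton_self w)
    let ψ : (E ⧸ S) →ₛₗ[frobenius L 2] (E ⧸ S) := S.mapQ S φ hS
    have hψ : Function.Injective ψ := by
      rw [injective_iff_map_eq_zero]
      intro y hy
      obtain ⟨u, rfl⟩ := Submodule.Quotient.mk_surjective S y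
      rw [Submodule.mapQ_apply] at hy
      have h1 : φ u ∈ S := (Submodule.Quotient.mk_eq_zero S).mp hy
      obtain ⟨a, ha⟩ := Submodule.mem_span_singleton.mp h1
      obtain ⟨b, hb⟩ := IsAlgClosed.exists_pow_nat_eq a (n := 2) (by norm_num)
      have h2 : φ (b • w) = φ u := by
        rw [LinearMap.map_smulₛₗ, hfw, frobenius_def, hb, ha]
      have h3 : b • w = u := hφ h2
      rw [Submodule.Quotient.mk_eq_zero, ← h3]
      exact Submodule.smul_mem _ _ (Submodule.mem_span_singleton_self w)
    have hfr : Module.finrank L (E ⧸ S) = n := by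
      have h1 := Submodule.finrank_quotient_add_finrank S
      have h2 : Module.finrank L S = 1 := finrank_span_singleton hw
      omega
    have hsp := ih (E ⧸ S) ψ hψ hfr
    set F : Submodule L E := Submodule.span L {w : E | φ w = w} with hF
    have hwF : S ≤ F := by
      rw [Submodule.span_singleton_le_iff_mem]
      exact Submodule.subset_span hfw
    -- lifting
    have hmap : Submodule.map S.mkQ F = ⊤ := by
      rw [eq_top_iff, ← hsp, Submodule.span_le]
      intro y hy
      obtain ⟨u, rfl⟩ := Submodule.Quotient.mk_surjective S y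
      have hy' : ψ (Submodule.Quotient.mk u) = Submodule.Quotient.mk u := hy
      rw [Submodule.mapQ_apply, Submodule.Quotient.eq] at hy'
      obtain ⟨a, ha⟩ := Submodule.mem_span_singleton.mp hy'
      have hroot : ∃ x : L, x ^ 2 - x + a = 0 := by
        have hdeg : (X ^ 2 - X + C a : L[X]).degree ≠ 0 := by
          have : (X ^ 2 - X + C a : L[X]).degree = 2 := by compute_degree!
          rw [this]; norm_num
        obtain ⟨x, hx⟩ := IsAlgClosed.exists_root _ hdeg
        exact ⟨x, by simpa [IsRoot] using hx⟩
      obtain ⟨x, hx⟩ := hroot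
      refine ⟨u + x • w, Submodule.subset_span ?_, ?_⟩
      · show φ (u + x • w) = u + x • w
        rw [map_add, LinearMap.map_smulₛₗ, hfw, frobenius_def]
        have h1 : φ u = u + a • w := by rw [ha]; abel
        rw [h1]
        have h2 : a = x - x ^ 2 := by linear_combination hx
        rw [h2, sub_smul]
        abel
      · rw [Submodule.mkQ_apply, Submodule.Quotient.eq]
        have : u + x • w - u = x • w := by abel
        rw [this]
        exact Submodule.smul_mem _ _ (Submodule.mem_span_singleton_self w)
    rw [eq_top_iff]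
    intro e _
    have he : S.mkQ e ∈ Submodule.map S.mkQ F := by rw [hmap]; trivial
    obtain ⟨f, hf, hfe⟩ := he
    have h1 : e - f ∈ S := by
      rw [← Submodule.Quotient.eq]; exact hfe.symm
    have h2 : e = f + (e - f) := by abel
    rw [h2]
    exact F.add_mem hf (hwF h1)

end

/-- job LNG -/
theorem t_LNG : S_LNG.{u} := by
  intro L _ _ _ n _ _ A hA
  let φ : (n → L) →ₛₗ[frobenius L 2] (n → L) :=
    { toFun := fun v => A⁻¹.mulVec (fun i => v i ^ 2)
      map_add' := by
        intro x y
        rw [← Matrix.mulVec_add]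
        congr 1
        funext i
        simp only [Pi.add_apply]
        rw [add_pow_char]
      map_smul' := by
        intro a x
        rw [← Matrix.mulVec_smul]
        congr 1
        funext i
        simp only [Pi.smul_apply, smul_eq_mul, frobenius_def, mul_pow] }
  have hAu : IsUnit A.det := isUnit_iff_ne_zero.mpr hA
  have hφ : Function.Injective φ := by
    rw [injective_iff_map_eq_zero]
    intro v hv
    have h1 : A.mulVec (A⁻¹.mulVec (fun i => v i ^ 2)) = A.mulVec 0 := congrArg _ hv
    rw [Matrix.mulVec_mulVec, Matrix.mul_nonsing_inv _ hAu, Matrix.one_mulVec,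
      Matrix.mulVec_zero] at h1
    funext i
    have h2 := congrFun h1 i
    simpa using h2
  have hsp := span_fixed (L := L) _ (n → L) φ hφ rfl
  obtain ⟨b, hb1, hb2, hb3⟩ := exists_linearIndependent L {w : n → L | φ w = w}
  rw [hsp] at hb2
  have hbas := Module.Basis.mk hb3 (by rw [Subtype.range_coe, hb2])
  have hfin : Finite b := Module.Finite.finite_basis hbas
  have := Fintype.ofFinite b
  have hcard : Fintype.card n = Fintype.card b := by
    rw [← Module.finrank_eq_card_basis hbas, Module.finrank_fintype_fun_eq_card]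
  let e : n ≃ b := Fintype.equivOfCardEq hcard
  let P : Matrix n n L := Matrix.of (fun i j => (e j : n → L) i)
  have hcol : LinearIndependent L P.col := by
    have : P.col = (fun x : b => (x : n → L)) ∘ e := by
      funext j i
      rfl
    rw [this]
    exact hb3.comp _ e.injective
  refine ⟨P, ?_, ?_⟩
  · have := Matrix.linearIndependent_cols_iff_isUnit.mp hcol
    rw [Matrix.isUnit_iff_isUnit_det] at this
    exact this.ne_zero
  · have hcolj : ∀ j, A.mulVec (P.col j) = fun i => (P.col j i) ^ 2 := by
      intro j
      have h1 : φ (P.col j) = P.col j := hb1 (e j).2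
      have h2 : A.mulVec (A⁻¹.mulVec (fun i => (P.col j) i ^ 2)) = A.mulVec (P.col j) :=
        congrArg _ h1
      rw [Matrix.mulVec_mulVec, Matrix.mul_nonsing_inv _ hAu, Matrix.one_mulVec] at h2
      exact h2.symm
    ext i j
    have h3 := congrFun (hcolj j) i
    simp only [Matrix.map_apply]
    rw [Matrix.mul_apply]
    rw [Matrix.mulVec, dotProduct] at h3
    exact h3.symm

end Pool.Agent.Q222.MI2
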