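import Pool.Agent.Q12.MI2.Stm2

/-!
# Project MI2, job SPC: specialisations of the algebraic closure of `K(t)`
-/

set_option autoImplicit false

namespace Pool.Agent.Q222.MI2

open Finset Polynomial Q12.MI2

universe u v w

/-- a place over `t = a` on an integral extension of `K[X]` -/
theorem exists_place {K : Type u} [Field K] [IsAlgClosed K] {O : Type v} [CommRing O]
    [Algebra K[X] O] [Algebra.IsIntegral K[X] O] (hinj : Function.Injective (algebraMap K[X] O))
    (a : K) : ∃ s : O →+* K, ∀ p : K[X], s (algebraMap K[X] O p) = p.eval a := by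
  let ev : K[X] →+* K := evalRingHom a
  have hev : Function.Surjective ev := fun c => ⟨C c, by simp [ev]⟩
  have hmax : (RingHom.ker ev).IsMaximal := RingHom.ker_isMaximal_of_surjective ev hev
  obtain ⟨Q, hQ, hQc⟩ := Ideal.exists_ideal_over_maximal_of_isIntegral (S := O) (RingHom.ker ev) (by
    rw [(RingHom.injective_iff_ker_eq_bot _).mp hinj]; exact bot_le)
  let k := O ⧸ Q
  let _ : Field k := Ideal.Quotient.field Q
  let ψ : K[X] →+* k := (Ideal.Quotient.mk Q).comp (algebraMap K[X] O)
  let φ : K →+* k := ψ.comp C
  have hψφ : ∀ p : K[X], ψ p = φ (p.eval a) := by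
    intro p
    have h1 : p - C (p.eval a) ∈ RingHom.ker ev := by
      rw [RingHom.mem_ker]; simp [ev]
    rw [← hQc, Ideal.mem_comap] at h1
    have h2 : ψ (p - C (p.eval a)) = 0 := by
      simp only [ψ, RingHom.comp_apply]
      exact Ideal.Quotient.eq_zero_iff_mem.mpr h1
    rw [map_sub, sub_eq_zero] at h2
    exact h2
  have hψint : ψ.IsIntegral := by
    refine RingHom.IsIntegral.trans _ _ ?_ ?_
    · exact algebraMap_isIntegral_iff.mpr inferInstance
    · exact RingHom.isIntegral_of_surjective _ Ideal.Quotient.mk_surjective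
  have hφint : φ.IsIntegral := by
    apply RingHom.IsIntegral.tower_top ev φ
    have : φ.comp ev = ψ := by
      ext p
      all_goals simp [ev, hψφ]
    rw [this]; exact hψint
  let _ : Algebra K k := φ.toAlgebra
  have hI : Algebra.IsIntegral K k := ⟨hφint⟩
  have hbij : Function.Bijective (algebraMap K k) :=
    IsAlgClosed.algebraMap_bijective_of_isIntegral
  let e : K ≃+* k := RingEquiv.ofBijective (algebraMap K k) hbij
  refine ⟨(e.symm : k →+* K).comp (Ideal.Quotient.mk Q), fun p => ?_⟩
  have h3 : (Ideal.Quotient.mk Q) (algebraMap K[X] O p) = e (p.eval a) := hψφ p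
  show e.symm ((Ideal.Quotient.mk Q) (algebraMap K[X] O p)) = _
  rw [h3, RingEquiv.symm_apply_apply]

/-- job SPC -/
theorem t_SPC : S_SPC.{u} := by
  intro K _ _ _
  let L := AlgebraicClosure (FractionRing K[X])
  have hinj : Function.Injective (algebraMap K[X] L) := by
    rw [IsScalarTower.algebraMap_eq K[X] (FractionRing K[X]) L]
    exact (algebraMap (FractionRing K[X]) L).injective.comp (IsFractionRing.injective K[X] _)
  have hchar : CharP L 2 := by
    have h1 : CharP K[X] 2 := inferInstance
    exact charP_of_injective_ringHom hinj 2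
  let O := integralClosure K[X] L
  have hinjO : Function.Injective (algebraMap K[X] O) := by
    intro x y hxy
    apply hinj
    have := congrArg (algebraMap O L) hxy
    exact this
  have hint : Algebra.IsIntegral K[X] O := inferInstance
  obtain ⟨s0, hs0⟩ := exists_place (O := O) hinjO (0 : K)
  obtain ⟨s1, hs1⟩ := exists_place (O := O) hinjO (1 : K)
  refine ⟨L, inferInstance, inferInstance, hchar, algebraMap K[X] L, O.toSubring,
    fun a => O.algebraMap_mem a, ![s0, s1], hinj, ?_, ?_, ?_⟩
  · intro x hx
    exact hx
  · intro a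
    exact hs0 a
  · intro a
    exact hs1 a

end Pool.Agent.Q222.MI2
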