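import Pool.Agent.Q222.MI2.Base
import Pool.Agent.Q222.MI2.LNG
import Pool.Agent.Q222.MI2.SPC

/-!
# Project MI2, job PL: the path lemma
-/

set_option autoImplicit false
set_option linter.unusedSectionVars false

namespace Pool.Agent.Q222.MI2

open Finset Polynomial Q12.MI2

universe u v w

/-! ## Integrality of the solutions of `v² = B v` -/

section integral

variable {S : Type u} [CommRing S] {L : Type v} [Field L] [Algebra S L] {n : Type w} [Fintype n]
  [DecidableEq n]

/-- the module generated by the squarefree monomials -/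
noncomputable def sfm (S : Type u) [CommRing S] {L : Type v} [Field L] [Algebra S L] {n : Type w}
    [Fintype n] (v : n → L) : Submodule S L :=
  Submodule.span S (Set.range (fun I : Finset n => ∏ i ∈ I, v i))

theorem sfm_mon (v : n → L) (I : Finset n) : ∏ i ∈ I, v i ∈ sfm S v :=
  Submodule.subset_span ⟨I, rfl⟩

theorem sfm_mul (v : n → L) (B : Matrix n n S)
    (h : ∀ i, v i ^ 2 = ∑ m, algebraMap S L (B i m) * v m) (m : ℕ) :
    ∀ I : Finset n, I.card = m → ∀ i, v i * ∏ k ∈ I, v k ∈ sfm S v := by
  induction m using Nat.strong_induction_on with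
  | _ m ih =>
    intro I hI i
    by_cases hi : i ∈ I
    · rw [← Finset.mul_prod_erase I v hi, ← mul_assoc, ← pow_two, h, Finset.sum_mul]
      refine Submodule.sum_mem _ (fun k _ => ?_)
      rw [mul_assoc, ← Algebra.smul_def]
      refine Submodule.smul_mem _ _ ?_
      have hc : (I.erase i).card < m := by
        rw [← hI]; exact Finset.card_erase_lt_of_mem hi
      exact ih _ hc _ rfl k
    · rw [← Finset.prod_insert hi]
      exact sfm_mon v _

theorem isIntegral_of_sq (v : n → L) (B : Matrix n n S)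
    (h : ∀ i, v i ^ 2 = ∑ m, algebraMap S L (B i m) * v m) (i : n) : IsIntegral S (v i) := by
  have hN : sfm S v ≠ ⊥ := by
    intro h0
    have h1 := sfm_mon (S := S) v ∅
    rw [h0, Submodule.mem_bot, Finset.prod_empty] at h1
    exact one_ne_zero h1
  have hfg : (sfm S v).FG := by
    refine Submodule.fg_span (Set.finite_range _)
  refine isIntegral_of_smul_mem_submodule (sfm S v) hN hfg (v i) ?_
  intro x hx
  induction hx using Submodule.span_induction with
  | mem x hx =>
    obtain ⟨I, rfl⟩ := hx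
    exact sfm_mul v B h _ I rfl i
  | zero => rw [smul_zero]; exact Submodule.zero_mem _
  | add x y _ _ hx hy => rw [smul_add]; exact Submodule.add_mem _ hx hy
  | smul a x _ hx =>
    rw [smul_comm]
    exact Submodule.smul_mem _ _ hx

end integral

/-! ## Quadratic identities over a ring -/

theorem quad_ext {S : Type u} [CommRing S] {ι : Type} [Fintype ι] [DecidableEq ι]
    (D : Matrix ι ι S) (h : ∀ x : ι → S, ∑ i, ∑ j, D i j * x i * x j = 0)
    {R : Type v} [CommRing R] (f : S →+* R) (x : ι → R) :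
    ∑ i, ∑ j, f (D i j) * x i * x j = 0 := by
  have h1 : ∀ i, D i i = 0 := by
    intro i
    have := h (Pi.single i 1)
    simpa [Pi.single_apply] using this
  have h2 : ∀ i j, D i j + D j i = 0 := by
    intro i j
    by_cases hij : i = j
    · subst hij; rw [h1, add_zero]
    have h2 := h (Pi.single i 1 + Pi.single j 1)
    simp only [Pi.add_apply, Pi.single_apply, mul_add, Finset.sum_add_distrib, mul_ite,
      mul_one, mul_zero, Finset.sum_ite_eq', Finset.mem_univ, if_true] at h2
    simp only [h1, zero_add, add_zero] at h2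
    rw [add_comm] at h2
    simpa [add_comm] using h2
  rw [← Finset.sum_product' (s := univ) (t := univ)
    (f := fun i j => f (D i j) * x i * x j)]
  refine Finset.sum_involution (fun p _ => (p.2, p.1)) ?_ ?_ ?_ ?_
  · intro p _
    have h3 : f (D p.1 p.2) + f (D p.2 p.1) = 0 := by
      rw [← map_add, h2, map_zero]
    show f (D p.1 p.2) * x p.1 * x p.2 + f (D p.2 p.1) * x p.2 * x p.1 = 0
    linear_combination (x p.1 * x p.2) * h3
  · intro p _ hp heq
    apply hp
    have h4 : p.2 = p.1 := congrArg Prod.fst heq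
    rw [h4, h1, map_zero, zero_mul, zero_mul]
  · intro p _
    exact Finset.mem_univ _
  · intro p _
    rfl

theorem qd_mul_expand {A : Type*} [CommRing A] {ι κ : Type*} [Fintype ι]
    (b : ι → ι → κ → ℤ) (M : Matrix ι ι A) (y : ι → A) (k : κ) :
    qd b (M.mulVec y) k
      = ∑ i, ∑ m, (∑ p, ∑ q, M p i * M q m * (b p q k : A)) * y i * y m := by
  have h1 : qd b (M.mulVec y) k
      = ∑ p, ∑ q, ∑ i, ∑ m, M p i * y i * (M q m * y m) * (b p q k : A) := by
    simp only [qd, bil, Matrix.mulVec, dotProduct]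
    refine Finset.sum_congr rfl (fun p _ => Finset.sum_congr rfl (fun q _ => ?_))
    rw [Finset.sum_mul_sum, Finset.sum_mul]
    refine Finset.sum_congr rfl (fun i _ => ?_)
    rw [Finset.sum_mul]
  have h2 : ∀ f : ι → ι → ι → ι → A, ∑ p, ∑ q, ∑ i, ∑ m, f p q i m
      = ∑ i, ∑ m, ∑ p, ∑ q, f p q i m := by
    intro f
    have e1 : ∀ p, ∑ q, ∑ i, ∑ m, f p q i m = ∑ i, ∑ m, ∑ q, f p q i m := by
      intro p
      rw [Finset.sum_comm]
      exact Finset.sum_congr rfl (fun i _ => Finset.sum_comm)
    simp only [e1]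
    rw [Finset.sum_comm]
    exact Finset.sum_congr rfl (fun i _ => Finset.sum_comm)
  rw [h1, h2]
  refine Finset.sum_congr rfl (fun i _ => Finset.sum_congr rfl (fun m _ => ?_))
  simp only [Finset.sum_mul]
  refine Finset.sum_congr rfl (fun p _ => Finset.sum_congr rfl (fun q _ => ?_))
  ring

theorem mulVec_qd_expand {A : Type*} [CommRing A] {ι κ : Type*} [Fintype ι] [Fintype κ]
    (b : ι → ι → κ → ℤ) (C' : Matrix κ κ A) (y : ι → A) (k : κ) :
    C'.mulVec (qd b y) k = ∑ i, ∑ m, (∑ l, C' k l * (b i m l : A)) * y i * y m := by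
  simp only [Matrix.mulVec, dotProduct, qd, bil, Finset.mul_sum, Finset.sum_mul]
  rw [Finset.sum_comm]
  refine Finset.sum_congr rfl (fun i _ => ?_)
  rw [Finset.sum_comm]
  refine Finset.sum_congr rfl (fun j _ => Finset.sum_congr rfl (fun l _ => ?_))
  ring

/-- an identity `q(Mx) = C q(x)` extends along ring homomorphisms -/
theorem stab_ext {S : Type u} [CommRing S] {ι κ : Type} [Fintype ι] [DecidableEq ι] [Fintype κ]
    (b : ι → ι → κ → ℤ) (M : Matrix ι ι S) (C' : Matrix κ κ S)
    (h : ∀ x : ι → S, qd b (M.mulVec x) = C'.mulVec (qd b x))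
    {R : Type v} [CommRing R] (f : S →+* R) (x : ι → R) :
    qd b ((M.map f).mulVec x) = (C'.map f).mulVec (qd b x) := by
  funext k
  rw [qd_mul_expand, mulVec_qd_expand, ← sub_eq_zero, ← Finset.sum_sub_distrib]
  have key := quad_ext (fun i m => (∑ p, ∑ q, M p i * M q m * (b p q k : S))
    - ∑ l, C' k l * (b i m l : S)) (by
      intro y
      have h1 := congrFun (h y) k
      rw [qd_mul_expand, mulVec_qd_expand, ← sub_eq_zero, ← Finset.sum_sub_distrib] at h1
      rw [← h1]
      refine Finset.sum_congr rfl (fun i _ => ?_)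
      rw [← Finset.sum_sub_distrib]
      refine Finset.sum_congr rfl (fun m _ => ?_)
      ring) f x
  rw [← key]
  refine Finset.sum_congr rfl (fun i _ => ?_)
  rw [← Finset.sum_sub_distrib]
  refine Finset.sum_congr rfl (fun m _ => ?_)
  simp only [Matrix.map_apply, map_sub, map_sum, map_mul, map_intCast]
  ring

theorem cst_map {ι : Type*} {R S : Type*} [CommRing R] [CharP R 2] [CommRing S] [CharP S 2]
    (f : R →+* S) (x : ι → ZMod 2) : (fun i => f (cst R x i)) = cst S x := by
  funext i
  have h : f.comp (ZMod.castHom (dvd_refl 2) R) = ZMod.castHom (dvd_refl 2) S :=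
    RingHom.ext_zmod _ _
  exact congrArg (fun g : ZMod 2 →+* S => g (x i)) h

/-! ## Specialisation of the solutions -/

section place

variable {K : Type u} [Field K] {L : Type v} [Field L] [CharP L 2] (j : K[X] →+* L) (O : Subring L)
  (hj : ∀ a, j a ∈ O) {n : Type w} [Fintype n] [DecidableEq n]

/-- the matrix with entries in the subring -/
def inO (P : Matrix n n L) (hP : ∀ i k, P i k ∈ O) : Matrix n n O := fun i k => ⟨P i k, hP i k⟩

theorem place_rel (s : O →+* K) (a : K) (hs : ∀ p : K[X], s ⟨j p, hj p⟩ = p.eval a)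
    (M : Matrix n n K[X]) (P : Matrix n n L) (hP : ∀ i k, P i k ∈ O)
    (hrel : P.map (fun x => x ^ 2) = M.map j * P) (hdet : P.det ≠ 0) :
    ((inO O P hP).map s).map (fun x => x ^ 2) = M.map (eval a) * (inO O P hP).map s ∧
      ((inO O P hP).map s).det = (M.map (eval a)).det := by
  let jO : K[X] →+* O := j.codRestrict O hj
  have hsj : s.comp jO = evalRingHom a := by
    refine RingHom.ext (fun p => ?_)
    exact hs p
  have hMe : M.map (eval a) = (M.map jO).map s := by
    ext i k
    rw [Matrix.map_apply, Matrix.map_apply, Matrix.map_apply]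
    exact (hs _).symm
  have hO : (inO O P hP).map (fun x => x ^ 2) = M.map jO * inO O P hP := by
    ext i k
    have h1 := congrFun (congrFun hrel i) k
    rw [Matrix.map_apply, Matrix.mul_apply] at h1
    rw [Matrix.map_apply, Matrix.mul_apply]
    rw [AddSubmonoidClass.coe_finsetSum]
    exact h1
  constructor
  · have h2 := congrArg (fun A : Matrix n n O => A.map s) hO
    simp only [Matrix.map_mul] at h2
    rw [hMe, ← h2]
    ext i k
    simp
  · have h3 : P.det ^ 2 = j M.det * P.det := by
      have h4 := congrArg Matrix.det hrel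
      rw [Matrix.det_mul] at h4
      have h5 : (P.map (fun x => x ^ 2)).det = P.det ^ 2 := by
        have := RingHom.map_det (frobenius L 2) P
        rw [frobenius_def] at this
        rw [this]
        rfl
      rw [h5] at h4
      rw [h4, RingHom.map_det]
      rfl
    have h6 : P.det = j M.det := by
      rw [pow_two] at h3
      exact mul_right_cancel₀ hdet h3
    have h7 : (inO O P hP).det = jO M.det := by
      apply Subtype.coe_injective
      show O.subtype (inO O P hP).det = j M.det
      rw [← h6, RingHom.map_det]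
      rfl
    have h8 : ((inO O P hP).map s).det = s (inO O P hP).det := (RingHom.map_det s _).symm
    rw [h8, h7]
    show s ⟨j M.det, _⟩ = _
    rw [hs]
    exact RingHom.map_det (evalRingHom a) M

end place

/-- a matrix over a field of characteristic two fixed by squaring comes from `ZMod 2` -/
theorem exists_zmod {K : Type u} [Field K] [CharP K 2] {m n : Type*} (P : Matrix m n K)
    (h : P.map (fun x => x ^ 2) = P) :
    ∃ Q : Matrix m n (ZMod 2), Q.map (ZMod.castHom (dvd_refl 2) K) = P := by
  classical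
  refine ⟨Matrix.of (fun i k => if P i k = 0 then 0 else 1), ?_⟩
  ext i k
  have h1 : P i k ^ 2 = P i k := congrFun (congrFun h i) k
  rw [Matrix.map_apply, Matrix.of_apply]
  by_cases h0 : P i k = 0
  · rw [if_pos h0, map_zero, h0]
  · rw [if_neg h0, map_one]
    have h2 : P i k * P i k = 1 * P i k := by rw [one_mul, ← pow_two, h1]
    exact (mul_right_cancel₀ h0 h2).symm

theorem cst_mulVec {K : Type u} [Field K] [CharP K 2] {m n : Type*} [Fintype n]
    (Q : Matrix m n (ZMod 2)) (x : n → ZMod 2) :
    cst K (Q.mulVec x) = (Q.map (ZMod.castHom (dvd_refl 2) K)).mulVec (cst K x) := by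
  funext i
  simp only [cst, Matrix.mulVec, dotProduct, map_sum, map_mul, Matrix.map_apply]

theorem cst_inj {K : Type u} [Field K] [CharP K 2] {n : Type*} {x y : n → ZMod 2}
    (h : cst K x = cst K y) : x = y := by
  funext i
  exact (ZMod.castHom (dvd_refl 2) K).injective (congrFun h i)

/-- `C₁` is invertible -/
theorem det_C_ne {K : Type u} [Field K] [CharP K 2] {ι κ : Type} [Fintype ι]
    [DecidableEq ι] [Fintype κ] [DecidableEq κ] (b : ι → ι → κ → ℤ) (M₁ : Matrix ι ι K)
    (C₁ : Matrix κ κ K)
    (hspan : Submodule.span (ZMod 2) (Set.range (qd b : (ι → ZMod 2) → κ → ZMod 2)) = ⊤)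
    (hM : M₁.det ≠ 0) (h : InStab b M₁ C₁) : C₁.det ≠ 0 := by
  intro h0
  obtain ⟨u, hu, hu0⟩ := Matrix.exists_vecMul_eq_zero_iff.mpr h0
  apply hu
  have h1 : ∀ z : ι → K, ∑ k, u k * qd b z k = 0 := by
    intro z
    have h2 : z = M₁.mulVec (M₁⁻¹.mulVec z) := by
      rw [Matrix.mulVec_mulVec, Matrix.mul_nonsing_inv _ (isUnit_iff_ne_zero.mpr hM),
        Matrix.one_mulVec]
    rw [h2, h]
    have h3 : ∑ k, u k * C₁.mulVec (qd b (M₁⁻¹.mulVec z)) k
        = dotProduct (Matrix.vecMul u C₁) (qd b (M₁⁻¹.mulVec z)) := by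
      rw [← Matrix.dotProduct_mulVec]
      rfl
    rw [h3, hu0, zero_dotProduct]
  have h4 : ∀ w : κ → ZMod 2, ∑ k, u k * cst K w k = 0 := by
    intro w
    have hw : w ∈ Submodule.span (ZMod 2)
        (Set.range (qd b : (ι → ZMod 2) → κ → ZMod 2)) := by rw [hspan]; trivial
    induction hw using Submodule.span_induction with
    | mem x hx =>
      obtain ⟨z, rfl⟩ := hx
      rw [← qd_cst]; exact h1 _
    | zero => simp [cst]
    | add x y _ _ hx hy =>
      rw [cst_add]
      simp only [Pi.add_apply, mul_add, Finset.sum_add_distrib, hx, hy, add_zero]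
    | smul a x _ hx =>
      have : cst K (a • x) = fun k => ZMod.castHom (dvd_refl 2) K a * cst K x k := by
        funext k
        simp [cst]
      rw [this]
      have h5 : ∑ k, u k * (ZMod.castHom (dvd_refl 2) K a * cst K x k)
          = ZMod.castHom (dvd_refl 2) K a * ∑ k, u k * cst K x k := by
        rw [Finset.mul_sum]
        exact Finset.sum_congr rfl (fun k _ => by ring)
      rw [h5, hx, mul_zero]
  funext k
  have h6 := h4 (Pi.single k 1)
  simpa [cst_single] using h6

/-- job PL -/
theorem t_PL : S_PL.{u} := by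
  intro K _ _ _ ι κ _ _ _ _ b M₁ hspan hM hpath
  obtain ⟨M, Cp, hq, h0, hC0, h1⟩ := hpath
  obtain ⟨L, _, _, _, j, O, hj, s, hjinj, hint, hs0, hs1⟩ := t_SPC K
  have hst : ∀ a : K, InStab b (M.map (eval a)) (Cp.map (eval a)) := by
    intro a x
    exact stab_ext b M Cp hq (evalRingHom a) x
  have hst1 : InStab b M₁ (Cp.map (eval 1)) := by
    rw [← h1]; exact hst 1
  have hC1 : (Cp.map (eval 1)).det ≠ 0 := det_C_ne b M₁ _ hspan hM hst1
  have hdM : M.det ≠ 0 := by
    intro h
    have h2 : (M.map (eval 0)).det = eval 0 M.det :=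
      (RingHom.map_det (evalRingHom (0 : K)) M).symm
    rw [h0, h, Matrix.det_one, eval_zero] at h2
    exact one_ne_zero h2
  have hdC : Cp.det ≠ 0 := by
    intro h
    have h2 : (Cp.map (eval 0)).det = eval 0 Cp.det :=
      (RingHom.map_det (evalRingHom (0 : K)) Cp).symm
    rw [hC0, h, Matrix.det_one, eval_zero] at h2
    exact one_ne_zero h2
  have hjM : (M.map j).det ≠ 0 := by
    have h2 : (M.map j).det = j M.det := (RingHom.map_det j M).symm
    rw [h2]
    exact fun h => hdM (hjinj (by rw [h, map_zero]))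
  have hjC : (Cp.map j).det ≠ 0 := by
    have h2 : (Cp.map j).det = j Cp.det := (RingHom.map_det j Cp).symm
    rw [h2]
    exact fun h => hdC (hjinj (by rw [h, map_zero]))
  obtain ⟨P, hPdet, hPrel⟩ := t_LNG L ι (M.map j) hjM
  obtain ⟨R, hRdet, hRrel⟩ := t_LNG L κ (Cp.map j) hjC
  let _ : Algebra K[X] L := j.toAlgebra
  have hPO : ∀ i k, P i k ∈ O := by
    intro i k
    apply hint
    refine isIntegral_of_sq (S := K[X]) (fun i => P i k) M ?_ i
    intro i
    exact congrFun (congrFun hPrel i) k
  have hRO : ∀ i k, R i k ∈ O := by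
    intro i k
    apply hint
    refine isIntegral_of_sq (S := K[X]) (fun i => R i k) Cp ?_ i
    intro i
    exact congrFun (congrFun hRrel i) k
  -- the values over `ZMod 2`
  have hy : ∀ x : ι → ZMod 2, ∃ y : κ → ZMod 2,
      qd b (P.mulVec (cst L x)) = R.mulVec (cst L y) := by
    intro x
    obtain ⟨w, hw⟩ : ∃ w, w = qd b (P.mulVec (cst L x)) := ⟨_, rfl⟩
    obtain ⟨z, hz⟩ : ∃ z, z = R⁻¹.mulVec w := ⟨_, rfl⟩
    have hRz : R.mulVec z = w := by
      rw [hz, Matrix.mulVec_mulVec, Matrix.mul_nonsing_inv _ (isUnit_iff_ne_zero.mpr hRdet),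
        Matrix.one_mulVec]
    have hsqx : (fun i => (frobenius L 2) (cst L x i)) = cst L x := cst_map (frobenius L 2) x
    have hPx : (fun i => (frobenius L 2) (P.mulVec (cst L x) i))
        = (M.map j).mulVec (P.mulVec (cst L x)) := by
      rw [Matrix.mulVec_mulVec, ← hPrel]
      funext i
      have h2 : (frobenius L 2) (P.mulVec (cst L x) i)
          = (P.map (frobenius L 2)).mulVec (fun i => (frobenius L 2) (cst L x i)) i := by
        simp only [Matrix.mulVec, dotProduct, map_sum, map_mul, Matrix.map_apply]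
      rw [h2, hsqx]
      rfl
    have hw2 : (fun k => (frobenius L 2) (w k)) = (Cp.map j).mulVec w := by
      have h2 := qd_map b (frobenius L 2) (P.mulVec (cst L x))
      rw [hPx, stab_ext b M Cp hq j (P.mulVec (cst L x))] at h2
      rw [hw, h2]
    have hRz2 : (fun k => (frobenius L 2) (w k))
        = ((Cp.map j) * R).mulVec (fun k => (frobenius L 2) (z k)) := by
      rw [← hRrel, ← hRz]
      funext k
      simp only [Matrix.mulVec, dotProduct, map_sum, map_mul, Matrix.map_apply, frobenius_def]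
    have hz2 : (fun k => (frobenius L 2) (z k)) = z := by
      have h3 : ((Cp.map j) * R).mulVec (fun k => (frobenius L 2) (z k))
          = ((Cp.map j) * R).mulVec z := by
        rw [← hRz2, hw2, ← Matrix.mulVec_mulVec, hRz]
      have hu : IsUnit ((Cp.map j) * R).det := by
        rw [Matrix.det_mul]
        exact isUnit_iff_ne_zero.mpr (mul_ne_zero hjC hRdet)
      have h4 := congrArg (fun v => (((Cp.map j) * R)⁻¹).mulVec v) h3
      simp only [Matrix.mulVec_mulVec] at h4
      rw [Matrix.nonsing_inv_mul _ hu, Matrix.one_mulVec, Matrix.one_mulVec] at h4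
      exact h4
    obtain ⟨Q, hQ⟩ := exists_zmod (Matrix.of (fun (k : κ) (_ : Unit) => z k)) (by
      ext k _
      exact congrFun hz2 k)
    refine ⟨fun k => Q k (), ?_⟩
    have h5 : cst L (fun k => Q k ()) = z := by
      funext k
      exact congrFun (congrFun hQ k) ()
    rw [h5, hRz, hw]
  choose y hy using hy
  -- specialisation of the identity
  have hchO : CharP O 2 := RingHom.charP O.subtype Subtype.coe_injective 2
  have hyO : ∀ x : ι → ZMod 2, qd b ((inO O P hPO).mulVec (cst O x))
      = (inO O R hRO).mulVec (cst O (y x)) := by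
    intro x
    funext k
    apply Subtype.coe_injective
    have h2 := congrFun (hy x) k
    have h3 := congrFun (qd_map b O.subtype ((inO O P hPO).mulVec (cst O x))) k
    have h4 : (fun i => O.subtype ((inO O P hPO).mulVec (cst O x) i)) = P.mulVec (cst L x) := by
      funext i
      rw [← cst_map O.subtype x]
      simp only [Matrix.mulVec, dotProduct, map_sum, map_mul]
      rfl
    have h5 : O.subtype ((inO O R hRO).mulVec (cst O (y x)) k) = R.mulVec (cst L (y x)) k := by
      rw [← cst_map O.subtype (y x)]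
      simp only [Matrix.mulVec, dotProduct, map_sum, map_mul]
      rfl
    show O.subtype _ = O.subtype _
    rw [h5, ← h2, ← h4, h3]
  have hspec : ∀ (t : O →+* K) (x : ι → ZMod 2),
      qd b (((inO O P hPO).map t).mulVec (cst K x)) = ((inO O R hRO).map t).mulVec (cst K (y x)) := by
    intro t x
    have h2 : (fun k => t (qd b ((inO O P hPO).mulVec (cst O x)) k))
        = (fun k => t ((inO O R hRO).mulVec (cst O (y x)) k)) := by rw [hyO x]
    rw [← qd_map] at h2
    have h4 : (fun i => t ((inO O P hPO).mulVec (cst O x) i))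
        = ((inO O P hPO).map t).mulVec (cst K x) := by
      funext i
      rw [← cst_map t x]
      simp only [Matrix.mulVec, dotProduct, map_sum, map_mul]
      rfl
    have h5 : (fun i => t ((inO O R hRO).mulVec (cst O (y x)) i))
        = ((inO O R hRO).map t).mulVec (cst K (y x)) := by
      funext i
      rw [← cst_map t (y x)]
      simp only [Matrix.mulVec, dotProduct, map_sum, map_mul]
      rfl
    rw [h4, h5] at h2
    exact h2
  obtain ⟨hP0, hP0d⟩ := place_rel j O hj (s 0) 0 hs0 M P hPO hPrel hPdet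
  obtain ⟨hP1, hP1d⟩ := place_rel j O hj (s 1) 1 hs1 M P hPO hPrel hPdet
  obtain ⟨hR0, hR0d⟩ := place_rel j O hj (s 0) 0 hs0 Cp R hRO hRrel hRdet
  obtain ⟨hR1, hR1d⟩ := place_rel j O hj (s 1) 1 hs1 Cp R hRO hRrel hRdet
  rw [h0, one_mul] at hP0
  rw [hC0, one_mul] at hR0
  rw [h0, Matrix.det_one] at hP0d
  rw [hC0, Matrix.det_one] at hR0d
  rw [h1] at hP1 hP1d
  obtain ⟨Q, hQ⟩ := exists_zmod _ hP0
  obtain ⟨S, hS⟩ := exists_zmod _ hR0
  have hQdet : Q.det ≠ 0 := by
    intro h
    rw [← hQ] at hP0d
    have h2 : (Q.map (ZMod.castHom (dvd_refl 2) K)).det = ZMod.castHom (dvd_refl 2) K Q.det :=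
      (RingHom.map_det (ZMod.castHom (dvd_refl 2) K) Q).symm
    rw [h2, h, map_zero] at hP0d
    exact zero_ne_one hP0d
  have hSdet : S.det ≠ 0 := by
    intro h
    rw [← hS] at hR0d
    have h2 : (S.map (ZMod.castHom (dvd_refl 2) K)).det = ZMod.castHom (dvd_refl 2) K S.det :=
      (RingHom.map_det (ZMod.castHom (dvd_refl 2) K) S).symm
    rw [h2, h, map_zero] at hR0d
    exact zero_ne_one hR0d
  have hQu : IsUnit Q.det := isUnit_iff_ne_zero.mpr hQdet
  have hSu : IsUnit S.det := isUnit_iff_ne_zero.mpr hSdet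
  have hfr : ∀ {m : Type} (A : Matrix m m (ZMod 2)),
      ((A.map (ZMod.castHom (dvd_refl 2) K)).map (fun x => x ^ 2))
        = A.map (ZMod.castHom (dvd_refl 2) K) := by
    intro m A
    ext i k
    have h2 : (frobenius K 2).comp (ZMod.castHom (dvd_refl 2) K) = ZMod.castHom (dvd_refl 2) K :=
      RingHom.ext_zmod _ _
    exact congrArg (fun g : ZMod 2 →+* K => g (A i k)) h2
  have hmulsq : ∀ {m : Type} [Fintype m] (A B : Matrix m m K),
      (A * B).map (fun x => x ^ 2) = A.map (fun x => x ^ 2) * B.map (fun x => x ^ 2) := by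
    intro m _ A B
    have := Matrix.map_mul (L := A) (M := B) (f := frobenius K 2)
    exact this
  refine ⟨(inO O P hPO).map (s 1) * (Q⁻¹).map (ZMod.castHom (dvd_refl 2) K),
    (inO O R hRO).map (s 1) * (S⁻¹).map (ZMod.castHom (dvd_refl 2) K), Cp.map (eval 1),
    ?_, ?_, hst1, ?_, ?_, ?_⟩
  · rw [Matrix.det_mul, hP1d]
    refine mul_ne_zero hM ?_
    have h2 : ((Q⁻¹).map (ZMod.castHom (dvd_refl 2) K)).det
        = ZMod.castHom (dvd_refl 2) K (Q⁻¹).det :=
      (RingHom.map_det (ZMod.castHom (dvd_refl 2) K) _).symm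
    rw [h2]
    intro h3
    have h4 : (Q⁻¹).det = 0 := (ZMod.castHom (dvd_refl 2) K).injective (by rw [h3, map_zero])
    have h5 : (Q * Q⁻¹).det = 1 := by rw [Matrix.mul_nonsing_inv _ hQu, Matrix.det_one]
    rw [Matrix.det_mul, h4, mul_zero] at h5
    exact zero_ne_one h5
  · rw [Matrix.det_mul, hR1d]
    refine mul_ne_zero hC1 ?_
    have h2 : ((S⁻¹).map (ZMod.castHom (dvd_refl 2) K)).det
        = ZMod.castHom (dvd_refl 2) K (S⁻¹).det :=
      (RingHom.map_det (ZMod.castHom (dvd_refl 2) K) _).symm
    rw [h2]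
    intro h3
    have h4 : (S⁻¹).det = 0 := (ZMod.castHom (dvd_refl 2) K).injective (by rw [h3, map_zero])
    have h5 : (S * S⁻¹).det = 1 := by rw [Matrix.mul_nonsing_inv _ hSu, Matrix.det_one]
    rw [Matrix.det_mul, h4, mul_zero] at h5
    exact zero_ne_one h5
  · rw [hmulsq, hP1, hfr, Matrix.mul_assoc]
  · rw [hmulsq, hR1, hfr, Matrix.mul_assoc]
  · intro x
    have h2 := hspec (s 1) (Q⁻¹.mulVec x)
    have h3 := hspec (s 0) (Q⁻¹.mulVec x)
    rw [← hQ, ← cst_mulVec, Matrix.mulVec_mulVec, Matrix.mul_nonsing_inv _ hQu,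
      Matrix.one_mulVec, ← hS, ← cst_mulVec, qd_cst] at h3
    have h4 := cst_inj h3
    have h5 : y (Q⁻¹.mulVec x) = S⁻¹.mulVec (qd b x) := by
      rw [h4, Matrix.mulVec_mulVec, Matrix.nonsing_inv_mul _ hSu, Matrix.one_mulVec]
    rw [h5, cst_mulVec, cst_mulVec, Matrix.mulVec_mulVec, Matrix.mulVec_mulVec] at h2
    exact h2

end Pool.Agent.Q222.MI2
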