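import Pool.Agent.Q12.MI2.Stm

/-!
# Project MI2, job TRV: decomposition into transvections in characteristic two
-/

set_option autoImplicit false
set_option linter.unusedSectionVars false

namespace Pool.Agent.Q222.MI2

open Q12.MI2

universe u v w

section

variable {K : Type u} [Field K] [CharP K 2] {U : Type u} [AddCommGroup U] [Module K U]
  [FiniteDimensional K U] (Y : Submodule K (Module.Dual K U)) (lamb : Y →ₗ[K] U)

/-- the conditions on the pair `e, f` -/
structure Dat (Y' : Submodule K Y) (e f : U →ₗ[K] Y) : Prop where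
  hef : ∀ ζ θ, (e ζ : Module.Dual K U) θ = (f θ : Module.Dual K U) ζ
  hrel : ∀ ζ, e ζ + f ζ + e (lamb (f ζ)) = 0
  hY' : ∀ ζ, f ζ ∈ Y'

/-- the conclusion -/
def Conc (Y' : Submodule K Y) (e : U →ₗ[K] Y) : Prop :=
  (1 + lamb ∘ₗ e : Module.End K U) ∈ Submonoid.closure
    {N : Module.End K U | ∃ y ∈ Y', N = 1 + (y : Module.Dual K U).smulRight (lamb y)}

variable {Y lamb}

theorem two_mod {M : Type*} [AddCommGroup M] [Module K M] (x : M) : x + x = 0 := by
  have h : x + x = (2 : K) • x := by rw [two_smul]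
  rw [h, CharTwo.two_eq_zero, zero_smul]

/-- the new operator -/
def eN (e : U →ₗ[K] Y) (y w : Y) : U →ₗ[K] Y := e + (y : Module.Dual K U).smulRight w

theorem eN_apply (e : U →ₗ[K] Y) (y w : Y) (ζ : U) :
    eN e y w ζ = e ζ + (y : Module.Dual K U) ζ • w := rfl

theorem lam_symm (halt : ∀ y : Y, (y : Module.Dual K U) (lamb y) = 0) (y z : Y) :
    (y : Module.Dual K U) (lamb z) = (z : Module.Dual K U) (lamb y) := by
  have h := halt (y + z)
  rw [map_add, Submodule.coe_add, LinearMap.add_apply, map_add, map_add, halt y, halt z, zero_add,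
    add_zero] at h
  have h2 := eq_neg_of_add_eq_zero_left h
  rw [h2]
  exact CharTwo.neg_eq _

theorem step (halt : ∀ y : Y, (y : Module.Dual K U) (lamb y) = 0) {Y' : Submodule K Y}
    {e f : U →ₗ[K] Y} (h : Dat Y lamb Y' e f) {y : Y} (hy : y ∈ Y') :
    Dat Y lamb Y' (eN e y (y + e (lamb y))) (eN f (y + e (lamb y)) y) ∧
      (Conc Y lamb Y' (eN e y (y + e (lamb y))) → Conc Y lamb Y' e) := by
  obtain ⟨w, hw⟩ : ∃ w, w = y + e (lamb y) := ⟨_, rfl⟩
  rw [← hw]
  refine ⟨⟨?_, ?_, ?_⟩, ?_⟩
  · intro ζ θ
    rw [eN_apply, eN_apply]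
    simp only [Submodule.coe_add, Submodule.coe_smul, LinearMap.add_apply, LinearMap.smul_apply,
      smul_eq_mul, h.hef]
    ring
  · intro ζ
    have h1 : (w : Module.Dual K U) ζ = (y : Module.Dual K U) ζ
        + (y : Module.Dual K U) (lamb (f ζ)) := by
      rw [hw, Submodule.coe_add, LinearMap.add_apply, h.hef, lam_symm halt]
    have h2 : e (lamb y) = w + y := by
      rw [hw, add_comm y, add_assoc, two_mod (K := K) y, add_zero]
    have h3 := h.hrel ζ
    rw [eN_apply, eN_apply, eN_apply]
    simp only [map_add, map_smul, h2]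
    have h4 : (y : Module.Dual K U) (lamb y) = 0 := halt y
    rw [h4, smul_zero, add_zero, h1]
    have h5 : e (lamb (f ζ)) = e ζ + f ζ := by
      have h6 : e ζ + f ζ + (e ζ + f ζ) = 0 := two_mod (K := K) (M := Y) _
      exact add_left_cancel (h3.trans h6.symm)
    rw [h5]
    have e1 := two_mod (K := K) (e ζ)
    have e2 := two_mod (K := K) (f ζ)
    have e3 := two_mod (K := K) w
    have e4 := two_mod (K := K) y
    rw [← two_smul K] at e1 e2 e3 e4
    generalize (y : Module.Dual K U) ζ = s
    generalize (y : Module.Dual K U) (lamb (f ζ)) = t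
    have goal_eq : e ζ + s • w + (f ζ + (s + t) • y)
        + (e ζ + f ζ + (s + t) • (w + y) + t • w)
        = (2 : K) • e ζ + (2 : K) • f ζ + (s + t) • ((2 : K) • y) + (s + t) • ((2 : K) • w) := by
      module
    rw [goal_eq, e1, e2, e3, e4]
    simp
  · intro ζ
    rw [eN_apply]
    exact Y'.add_mem (h.hY' ζ) (Y'.smul_mem _ hy)
  · intro hc
    have hprod : (1 + lamb ∘ₗ e : Module.End K U)
        = (1 + lamb ∘ₗ (eN e y w)) * (1 + (y : Module.Dual K U).smulRight (lamb y)) := by
      refine LinearMap.ext (fun ζ => ?_)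
      show ζ + lamb (e ζ) = (ζ + (y : Module.Dual K U) ζ • lamb y)
        + lamb (eN e y w (ζ + (y : Module.Dual K U) ζ • lamb y))
      have h2 : e (lamb y) = w + y := by
        rw [hw, add_comm y, add_assoc, two_mod (K := K) y, add_zero]
      have h4 : (y : Module.Dual K U) (lamb y) = 0 := halt y
      rw [eN_apply]
      simp only [map_add, map_smul, h2, h4, smul_zero, add_zero, smul_add]
      have e3 := two_mod (K := K) (lamb w)
      have e4 := two_mod (K := K) (lamb y)
      rw [← two_smul K] at e3 e4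
      generalize (y : Module.Dual K U) ζ = s
      have goal_eq : ζ + s • lamb y + (lamb (e ζ) + (s • lamb w + s • lamb y) + s • lamb w)
          = ζ + lamb (e ζ) + (s • ((2 : K) • lamb y) + s • ((2 : K) • lamb w)) := by
        module
      rw [goal_eq, e3, e4]
      simp
    unfold Conc
    rw [hprod]
    exact Submonoid.mul_mem _ hc (Submonoid.subset_closure ⟨y, hy, rfl⟩)

theorem caseA (hs : ∀ a : K, ∃ b, b ^ 2 = a)
    (halt : ∀ y : Y, (y : Module.Dual K U) (lamb y) = 0) {Y' : Submodule K Y}
    {e f : U →ₗ[K] Y} (h : Dat Y lamb Y' e f) (η : U)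
    (hη : (e η : Module.Dual K U) η ≠ 0)
    (ih : ∀ e' f' : U →ₗ[K] Y, Dat Y lamb Y' e' f' →
      Module.finrank K (LinearMap.range e') < Module.finrank K (LinearMap.range e) →
      Conc Y lamb Y' e') : Conc Y lamb Y' e := by
  obtain ⟨κ, hκ⟩ := hs (((e η : Module.Dual K U) η)⁻¹)
  have hκ1 : κ ^ 2 * (e η : Module.Dual K U) η = 1 := by rw [hκ, inv_mul_cancel₀ hη]
  have hy : κ • f η ∈ Y' := Y'.smul_mem _ (h.hY' η)
  obtain ⟨hd, hc⟩ := step halt h hy
  apply hc
  refine ih _ _ hd ?_
  have hw : κ • f η + e (lamb (κ • f η)) = κ • e η := by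
    rw [map_smul, map_smul, ← smul_add]
    congr 1
    have h3 := h.hrel η
    have h6 : e η + e η = 0 := two_mod (K := K) (M := Y) _
    rw [add_assoc] at h3
    exact add_left_cancel (h3.trans h6.symm)
  rw [hw]
  have hval : ∀ ζ, eN e (κ • f η) (κ • e η) ζ
      = e ζ + (κ ^ 2 * (e ζ : Module.Dual K U) η) • e η := by
    intro ζ
    rw [eN_apply, Submodule.coe_smul, LinearMap.smul_apply, smul_eq_mul, ← h.hef, smul_smul]
    congr 2
    ring
  have hker : LinearMap.ker e < LinearMap.ker (eN e (κ • f η) (κ • e η)) := by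
    refine lt_of_le_of_ne ?_ ?_
    · intro ζ hζ
      rw [LinearMap.mem_ker] at hζ ⊢
      rw [hval, hζ]
      simp
    · intro heq
      have h1 : η ∈ LinearMap.ker (eN e (κ • f η) (κ • e η)) := by
        rw [LinearMap.mem_ker, hval, hκ1, one_smul]
        exact two_mod (K := K) (M := Y) _
      rw [← heq, LinearMap.mem_ker] at h1
      apply hη
      rw [h1]
      rfl
  have h1 := Submodule.finrank_lt_finrank_of_lt hker
  have h2 := LinearMap.finrank_range_add_finrank_ker (K := K) (V := U) (V₂ := Y) e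
  have h3 := LinearMap.finrank_range_add_finrank_ker (K := K) (V := U) (V₂ := Y) (eN e (κ • f η) (κ • e η))
  omega

theorem main (hs : ∀ a : K, ∃ b, b ^ 2 = a)
    (halt : ∀ y : Y, (y : Module.Dual K U) (lamb y) = 0) {Y' : Submodule K Y} (n : ℕ) :
    ∀ e f : U →ₗ[K] Y, Dat Y lamb Y' e f → Module.finrank K (LinearMap.range e) = n →
      Conc Y lamb Y' e := by
  induction n using Nat.strong_induction_on with
  | _ n ih =>
    intro e f h hn
    by_cases he : e = 0
    · subst he
      unfold Conc
      rw [LinearMap.comp_zero, add_zero]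
      exact Submonoid.one_mem _
    by_cases hA : ∃ η, (e η : Module.Dual K U) η ≠ 0
    · obtain ⟨η, hη⟩ := hA
      refine caseA hs halt h η hη ?_
      intro e' f' h' hlt
      exact ih _ (by omega) e' f' h' rfl
    · push Not at hA
      have hef : e = f := by
        refine LinearMap.ext (fun ζ => Subtype.ext (LinearMap.ext (fun θ => ?_)))
        rw [← h.hef]
        have h1 := hA (ζ + θ)
        have h0 : ((e (ζ + θ) : Y) : Module.Dual K U) = (e ζ : Module.Dual K U) + (e θ : Module.Dual K U) := by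
          rw [map_add]; rfl
        rw [h0, LinearMap.add_apply, map_add, map_add, hA, hA, zero_add,
          add_zero] at h1
        have h2 := eq_neg_of_add_eq_zero_left h1
        rw [h2]
        exact CharTwo.neg_eq _
      subst hef
      have hele : ∀ ζ, e (lamb (e ζ)) = 0 := by
        intro ζ
        have h1 := h.hrel ζ
        rw [two_mod (K := K) (e ζ), zero_add] at h1
        exact h1
      obtain ⟨η₀, hη₀⟩ : ∃ η₀, e η₀ ≠ 0 := by
        by_contra hcon
        push Not at hcon
        exact he (LinearMap.ext hcon)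
      obtain ⟨η, hη⟩ : ∃ η, (e η₀ : Module.Dual K U) η ≠ 0 := by
        by_contra hcon
        push Not at hcon
        exact hη₀ (Subtype.ext (LinearMap.ext hcon))
      obtain ⟨hd, hc⟩ := step halt h (h.hY' η₀)
      apply hc
      rw [hele, add_zero] at hd ⊢
      refine caseA hs halt hd η ?_ ?_
      · rw [eN_apply, Submodule.coe_add, LinearMap.add_apply, hA, zero_add, Submodule.coe_smul,
          LinearMap.smul_apply, smul_eq_mul]
        exact mul_ne_zero hη hη
      · intro e' f' h' hlt
        have hle : Module.finrank K (LinearMap.range (eN e (e η₀) (e η₀)))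
            ≤ Module.finrank K (LinearMap.range e) := by
          refine Submodule.finrank_mono ?_
          rintro _ ⟨ζ, rfl⟩
          rw [eN_apply]
          exact Submodule.add_mem _ ⟨ζ, rfl⟩ (Submodule.smul_mem _ _ ⟨η₀, rfl⟩)
        exact ih _ (by omega) e' f' h' rfl

end

/-- job TRV -/
theorem t_TRV : S_TRV.{u} := by
  intro K _ _ hs U _ _ _ Y lamb halt e f hef hrel Y' hY'
  exact main hs halt _ e f ⟨hef, hrel, hY'⟩ rfl

end Pool.Agent.Q222.MI2
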