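import Pool.Agent.Q222.MI2.QE

/-!
# Project MI2: generic lemmas on the bilinear map of an integer tensor
-/

set_option autoImplicit false

namespace Pool.Agent.Q222.MI2

open Finset Polynomial Q12.MI2

universe u v w

section bilin

variable {ι κ R : Type*} [Fintype ι] [CommRing R] (b : ι → ι → κ → ℤ)

theorem bil_add_left (x x' y : ι → R) : bil b (x + x') y = bil b x y + bil b x' y := by
  funext k
  simp only [bil, Pi.add_apply, add_mul, Finset.sum_add_distrib]

theorem bil_add_right (x y y' : ι → R) : bil b x (y + y') = bil b x y + bil b x y' := by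
  funext k
  simp only [bil, Pi.add_apply, mul_add, add_mul, Finset.sum_add_distrib]

theorem bil_smul_left (s : R) (x y : ι → R) : bil b (s • x) y = s • bil b x y := by
  funext k
  simp only [bil, Pi.smul_apply, smul_eq_mul, Finset.mul_sum, mul_assoc]

theorem bil_smul_right (s : R) (x y : ι → R) : bil b x (s • y) = s • bil b x y := by
  funext k
  simp only [bil, Pi.smul_apply, smul_eq_mul, Finset.mul_sum]
  refine Finset.sum_congr rfl (fun i _ => Finset.sum_congr rfl (fun j _ => ?_))
  ring

theorem qd_add (x y : ι → R) : qd b (x + y) = qd b x + qd b y + (bil b x y + bil b y x) := by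
  unfold qd
  rw [bil_add_left, bil_add_right, bil_add_right]
  abel

theorem qd_smul (s : R) (x : ι → R) : qd b (s • x) = (s ^ 2) • qd b x := by
  unfold qd
  rw [bil_smul_left, bil_smul_right, smul_smul, pow_two]

theorem bil_map {S : Type*} [CommRing S] (f : R →+* S) (x y : ι → R) :
    bil b (fun i => f (x i)) (fun i => f (y i)) = fun k => f (bil b x y k) := by
  funext k
  simp only [bil, map_sum, map_mul, map_intCast]

theorem qd_map {S : Type*} [CommRing S] (f : R →+* S) (x : ι → R) :
    qd b (fun i => f (x i)) = fun k => f (qd b x k) := bil_map b f x x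

theorem bil_cst [CharP R 2] (x y : ι → ZMod 2) :
    bil b (cst R x) (cst R y) = cst R (bil b x y) :=
  bil_map b (ZMod.castHom (dvd_refl 2) R) x y

theorem qd_cst [CharP R 2] (x : ι → ZMod 2) : qd b (cst R x) = cst R (qd b x) :=
  qd_map b (ZMod.castHom (dvd_refl 2) R) x

theorem bil_comm_expand (x y : ι → R) (k : κ) :
    bil b x y k + bil b y x k = ∑ i, x i * ∑ j, y j * ((b i j k : R) + (b j i k : R)) := by
  unfold bil
  rw [Finset.sum_comm (f := fun i j => y i * x j * (b i j k : R)), ← Finset.sum_add_distrib]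
  refine Finset.sum_congr rfl (fun i _ => ?_)
  rw [← Finset.sum_add_distrib, Finset.mul_sum]
  refine Finset.sum_congr rfl (fun j _ => ?_)
  ring

theorem bil_sum_right {α : Type*} (s : Finset α) (x : ι → R) (y : α → ι → R) :
    bil b x (∑ a ∈ s, y a) = ∑ a ∈ s, bil b x (y a) := by
  classical
  induction s using Finset.induction_on with
  | empty =>
    simp only [Finset.sum_empty]
    funext k; simp [bil]
  | insert a s ha ih => rw [Finset.sum_insert ha, Finset.sum_insert ha, bil_add_right, ih]

theorem bil_sum_left {α : Type*} (s : Finset α) (x : ι → R) (y : α → ι → R) :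
    bil b (∑ a ∈ s, y a) x = ∑ a ∈ s, bil b (y a) x := by
  classical
  induction s using Finset.induction_on with
  | empty =>
    simp only [Finset.sum_empty]
    funext k; simp [bil]
  | insert a s ha ih => rw [Finset.sum_insert ha, Finset.sum_insert ha, bil_add_left, ih]

end bilin

/-- QE for an identity between a quadratic form and a combination of the coordinates of `qd b` -/
theorem qe_scalar {K : Type u} [Field K] [CharP K 2] {ι κ : Type} [Fintype ι] [DecidableEq ι]
    [Fintype κ] (b : ι → ι → κ → ℤ) (A : Matrix ι ι K) (e : κ → K)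
    (h : ∀ x : ι → ZMod 2, ∑ i, ∑ j, A i j * cst K x i * cst K x j
      = ∑ l, e l * qd b (cst K x) l) {R : Type u} [CommRing R] [Algebra K R] (x : ι → R) :
    ∑ i, ∑ j, algebraMap K R (A i j) * x i * x j = ∑ l, algebraMap K R (e l) * qd b x l := by
  have key : ∀ (S : Type u) [CommRing S] [Algebra K S] (y : ι → S),
      ∑ l, algebraMap K S (e l) * qd b y l
        = ∑ i, ∑ j, algebraMap K S (∑ l, e l * (b i j l : K)) * y i * y j := by
    intro S _ _ y
    simp only [qd, bil, Finset.mul_sum, map_sum, map_mul, map_intCast, Finset.sum_mul]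
    rw [Finset.sum_comm]
    refine Finset.sum_congr rfl (fun i _ => ?_)
    rw [Finset.sum_comm]
    refine Finset.sum_congr rfl (fun j _ => Finset.sum_congr rfl (fun l _ => ?_))
    ring
  have hD := t_QE K ι (fun i j => A i j - ∑ l, e l * (b i j l : K)) (by
    intro y
    have h1 := h y
    have h2 := key K (cst K y)
    simp only [Algebra.algebraMap_self, RingHom.id_apply] at h2
    rw [h2] at h1
    simp only [sub_mul, Finset.sum_sub_distrib]
    rw [h1, sub_self]) R x
  rw [key R x]
  simp only [map_sub, sub_mul, Finset.sum_sub_distrib, sub_eq_zero] at hD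
  exact hD

/-- additive functions in coordinates -/
theorem addfun_coord {K : Type*} [Field K] [CharP K 2] {ι : Type*} [Fintype ι] [DecidableEq ι]
    (φ : (ι → ZMod 2) →+ K) (w : ι → ZMod 2) :
    φ w = ∑ i, cst K w i * φ (Pi.single i 1) := by
  have hw : w = ∑ i, Pi.single i (w i) := by
    rw [Finset.univ_sum_single]
  conv_lhs => rw [hw, map_sum]
  refine Finset.sum_congr rfl (fun i _ => ?_)
  have h2 : ∀ a : ZMod 2, φ (Pi.single i a) = ZMod.castHom (dvd_refl 2) K a * φ (Pi.single i 1) := by
    intro a
    fin_cases a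
    · show φ (Pi.single i (0 : ZMod 2)) = ZMod.castHom (dvd_refl 2) K (0 : ZMod 2) * _
      rw [Pi.single_zero, map_zero, map_zero, zero_mul]
    · show φ (Pi.single i (1 : ZMod 2)) = ZMod.castHom (dvd_refl 2) K (1 : ZMod 2) * _
      rw [map_one, one_mul]
  exact h2 (w i)

/-- the path attached to a transvection -/
theorem path_transv {K : Type*} [Field K] {ι κ : Type*} [Fintype ι] [DecidableEq ι]
    [Fintype κ] [DecidableEq κ] (b : ι → ι → κ → ℤ) (Y Lx : ι → K) (c φ : κ → K)
    (h1 : ∀ i k, ∑ j, Y j * ((b i j k : K) + (b j i k : K)) = Lx i * c k)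
    (h2 : ∀ x : ι → K[X], (∑ j, C (Lx j) * x j) ^ 2 = ∑ l, C (φ l) * qd b x l) :
    PathTo K b (1 + Matrix.vecMulVec Y Lx) := by
  refine ⟨1 + Matrix.vecMulVec (fun i => X * C (Y i)) (fun j => C (Lx j)),
    1 + Matrix.vecMulVec (fun k => X * C (c k) + X ^ 2 * C (qd b Y k)) (fun l => C (φ l)),
    ?_, ?_, ?_, ?_⟩
  · intro x
    obtain ⟨s, hs⟩ : ∃ s, s = ∑ j, C (Lx j) * x j := ⟨_, rfl⟩
    have e1 : (1 + Matrix.vecMulVec (fun i => X * C (Y i)) (fun j => C (Lx j)) :
        Matrix ι ι K[X]).mulVec x = x + (X * s) • (fun i => C (Y i)) := by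
      rw [Matrix.add_mulVec, Matrix.one_mulVec]
      congr 1
      funext i
      simp only [Matrix.mulVec, dotProduct, Matrix.vecMulVec_apply, Pi.smul_apply, smul_eq_mul]
      rw [hs, Finset.mul_sum, Finset.sum_mul]
      refine Finset.sum_congr rfl (fun j _ => ?_)
      ring
    rw [e1, qd_add, qd_smul, bil_smul_left, bil_smul_right]
    have e2 : qd b (fun i => C (Y i)) = fun k => C (qd b Y k) := qd_map b C Y
    have e3 : ∀ k, bil b x (fun i => C (Y i)) k + bil b (fun i => C (Y i)) x k = s * C (c k) := by
      intro k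
      rw [bil_comm_expand, hs, Finset.sum_mul]
      refine Finset.sum_congr rfl (fun i _ => ?_)
      have h4 : ∑ j, C (Y j) * ((b i j k : K[X]) + (b j i k : K[X])) = C (Lx i * c k) := by
        rw [← h1, map_sum]
        refine Finset.sum_congr rfl (fun j _ => ?_)
        simp
      rw [h4, C_mul]
      ring
    funext k
    rw [Matrix.add_mulVec, Matrix.one_mulVec]
    simp only [Pi.add_apply, Pi.smul_apply, smul_eq_mul, e2]
    rw [← mul_add, e3]
    have e4 : (Matrix.vecMulVec (fun k => X * C (c k) + X ^ 2 * C (qd b Y k))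
        (fun l => C (φ l))).mulVec (qd b x) k
        = (X * C (c k) + X ^ 2 * C (qd b Y k)) * s ^ 2 := by
      rw [hs, h2]
      simp only [Matrix.mulVec, dotProduct, Matrix.vecMulVec_apply, Finset.mul_sum]
      refine Finset.sum_congr rfl (fun l _ => ?_)
      ring
    rw [e4]
    ring
  · ext i j
    by_cases h : i = j
    · subst h; simp [Matrix.vecMulVec_apply]
    · simp [Matrix.vecMulVec_apply, h]
  · ext i j
    by_cases h : i = j
    · subst h; simp [Matrix.vecMulVec_apply]
    · simp [Matrix.vecMulVec_apply, h]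
  · ext i j
    by_cases h : i = j
    · subst h; simp [Matrix.vecMulVec_apply]
    · simp [Matrix.vecMulVec_apply, h]

/-- the path attached to an element of the Lie algebra -/
theorem path_lie {K : Type*} [Field K] {ι κ : Type*} [Fintype ι] [DecidableEq ι]
    [Fintype κ] [DecidableEq κ] (b : ι → ι → κ → ℤ) (F : Matrix ι ι K) (E E' : Matrix κ κ K)
    (h1 : ∀ x : ι → K[X], bil b x ((F.map C).mulVec x) + bil b ((F.map C).mulVec x) x
      = (E.map C).mulVec (qd b x))
    (h2 : ∀ x : ι → K[X], qd b ((F.map C).mulVec x) = (E'.map C).mulVec (qd b x)) :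
    PathTo K b (1 + F) := by
  refine ⟨1 + (X : K[X]) • F.map C, 1 + (X : K[X]) • E.map C + ((X : K[X]) ^ 2) • E'.map C,
    ?_, ?_, ?_, ?_⟩
  · intro x
    rw [Matrix.add_mulVec, Matrix.one_mulVec, Matrix.smul_mulVec, qd_add, qd_smul,
      bil_smul_left, bil_smul_right, ← smul_add, h1, h2, Matrix.add_mulVec, Matrix.add_mulVec,
      Matrix.one_mulVec, Matrix.smul_mulVec, Matrix.smul_mulVec]
    abel
  · ext i j
    by_cases h : i = j
    · subst h; simp
    · simp [h]
  · ext i j
    by_cases h : i = j
    · subst h; simp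
    · simp [h]
  · ext i j
    by_cases h : i = j
    · subst h; simp
    · simp [h]

end Pool.Agent.Q222.MI2
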