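import Pool.Agent.Q222.MI2.TP

/-!
# Project MI2, job GP: the Lie algebra factor is joined to the identity
-/

set_option autoImplicit false
set_option linter.unusedSectionVars false

namespace Pool.Agent.Q222.MI2

open Finset Polynomial Q12.MI2

universe u v w

section

variable {K : Type u} [Field K] {ι κ : Type} [Fintype ι] [DecidableEq ι] [Fintype κ]
  (b : ι → ι → κ → ℤ)

theorem expand_polar (F : Matrix ι ι K) {S : Type u} [CommRing S] [Algebra K S] (x : ι → S)
    (k : κ) :
    bil b x ((F.map (algebraMap K S)).mulVec x) k + bil b ((F.map (algebraMap K S)).mulVec x) x k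
      = ∑ i, ∑ m, algebraMap K S (∑ j, F j m * ((b i j k : K) + (b j i k : K))) * x i * x m := by
  rw [bil_comm_expand]
  refine Finset.sum_congr rfl (fun i _ => ?_)
  rw [Finset.mul_sum]
  simp only [Matrix.mulVec, dotProduct, Finset.sum_mul, Finset.mul_sum, map_sum, map_mul, map_add,
    map_intCast, Matrix.map_apply]
  rw [Finset.sum_comm]
  refine Finset.sum_congr rfl (fun m _ => Finset.sum_congr rfl (fun j _ => ?_))
  ring

theorem expand_qd (F : Matrix ι ι K) {S : Type u} [CommRing S] [Algebra K S] (x : ι → S)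
    (k : κ) :
    qd b ((F.map (algebraMap K S)).mulVec x) k
      = ∑ i, ∑ m, algebraMap K S (∑ p, ∑ q, F p i * F q m * (b p q k : K)) * x i * x m := by
  have h1 : qd b ((F.map (algebraMap K S)).mulVec x) k
      = ∑ p, ∑ q, ∑ i, ∑ m, algebraMap K S (F p i) * x i * (algebraMap K S (F q m) * x m)
        * (b p q k : S) := by
    simp only [qd, bil, Matrix.mulVec, dotProduct, Matrix.map_apply]
    refine Finset.sum_congr rfl (fun p _ => Finset.sum_congr rfl (fun q _ => ?_))
    rw [Finset.sum_mul_sum, Finset.sum_mul]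
    refine Finset.sum_congr rfl (fun i _ => ?_)
    rw [Finset.sum_mul]
  have h2 : ∀ f : ι → ι → ι → ι → S, ∑ p, ∑ q, ∑ i, ∑ m, f p q i m
      = ∑ i, ∑ m, ∑ p, ∑ q, f p q i m := by
    intro f
    have e1 : ∀ p, ∑ q, ∑ i, ∑ m, f p q i m = ∑ i, ∑ m, ∑ q, f p q i m := by
      intro p
      rw [Finset.sum_comm]
      exact Finset.sum_congr rfl (fun i _ => Finset.sum_comm)
    simp only [e1]
    rw [Finset.sum_comm]
    exact Finset.sum_congr rfl (fun i _ => Finset.sum_comm)
  rw [h1, h2]
  refine Finset.sum_congr rfl (fun i _ => Finset.sum_congr rfl (fun m _ => ?_))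
  simp only [map_sum, map_mul, map_intCast, Finset.sum_mul]
  refine Finset.sum_congr rfl (fun p _ => Finset.sum_congr rfl (fun q _ => ?_))
  ring

/-- the vector form of QE for the polar form -/
theorem qe_polar [CharP K 2] (F : Matrix ι ι K) (E : Matrix κ κ K)
    (h : ∀ x : ι → ZMod 2, ∀ k, bil b (cst K x) (F.mulVec (cst K x)) k
      + bil b (F.mulVec (cst K x)) (cst K x) k = E.mulVec (qd b (cst K x)) k)
    {S : Type u} [CommRing S] [Algebra K S] (x : ι → S) :
    bil b x ((F.map (algebraMap K S)).mulVec x) + bil b ((F.map (algebraMap K S)).mulVec x) x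
      = (E.map (algebraMap K S)).mulVec (qd b x) := by
  funext k
  rw [Pi.add_apply, expand_polar]
  have key := qe_scalar b (fun i m => ∑ j, F j m * ((b i j k : K) + (b j i k : K))) (E k) (by
    intro y
    have h1 := expand_polar b F (S := K) (cst K y) k
    have h2 : F.map (algebraMap K K) = F := by
      ext i j; simp
    rw [h2, h y k] at h1
    simp only [Algebra.algebraMap_self, RingHom.id_apply] at h1
    rw [← h1]
    rfl) x
  exact key

/-- the vector form of QE for the transformed quadratic map -/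
theorem qe_qd [CharP K 2] (F : Matrix ι ι K) (E : Matrix κ κ K)
    (h : ∀ x : ι → ZMod 2, ∀ k, qd b (F.mulVec (cst K x)) k = E.mulVec (qd b (cst K x)) k)
    {S : Type u} [CommRing S] [Algebra K S] (x : ι → S) :
    qd b ((F.map (algebraMap K S)).mulVec x) = (E.map (algebraMap K S)).mulVec (qd b x) := by
  funext k
  rw [expand_qd]
  have key := qe_scalar b (fun i m => ∑ p, ∑ q, F p i * F q m * (b p q k : K)) (E k) (by
    intro y
    have h1 := expand_qd b F (S := K) (cst K y) k
    have h2 : F.map (algebraMap K K) = F := by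
      ext i j; simp
    rw [h2, h y k] at h1
    simp only [Algebra.algebraMap_self, RingHom.id_apply] at h1
    rw [← h1]
    rfl) x
  exact key

end

section

variable {K : Type u} [Field K] [CharP K 2] {ι₁ ι₂ κ : Type} [Fintype ι₁]
  [DecidableEq ι₁] [Fintype ι₂] [DecidableEq ι₂] [Fintype κ] [DecidableEq κ]
  {b : (ι₁ ⊕ ι₂) → (ι₁ ⊕ ι₂) → κ → ℤ}
  {T : Tor K (ι₁ → ZMod 2) (κ → ZMod 2) (ι₁ ⊕ ι₂ → ZMod 2)}

/-- the polar form with a point over `ZMod 2` -/
theorem polar_point (hb : CoordTor b T) (x : ι₁ ⊕ ι₂ → ZMod 2) (z : ι₁ ⊕ ι₂ → K) (k : κ) :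
    bil b (cst K x) z k + bil b z (cst K x) k
      = ∑ i : ι₁, z (Sum.inl i) * cst K (T.β (T.p x) (Pi.single i 1)) k := by
  have hz : z = ∑ j, z j • cst K (Pi.single j (1 : ZMod 2)) := by
    funext i
    rw [Finset.sum_apply]
    simp [cst_single]
  have h1 : ∀ j, bil b (cst K x) (cst K (Pi.single j (1 : ZMod 2))) k
      + bil b (cst K (Pi.single j (1 : ZMod 2))) (cst K x) k
      = cst K (T.β (T.p x) (T.p (Pi.single j 1))) k := by
    intro j
    rw [bil_cst, bil_cst, beta_coord hb, cst_add]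
    rfl
  have h2 : bil b (cst K x) z k + bil b z (cst K x) k
      = ∑ j, z j * cst K (T.β (T.p x) (T.p (Pi.single j 1))) k := by
    conv_lhs => rw [hz]
    rw [bil_sum_right, bil_sum_left, Finset.sum_apply, Finset.sum_apply, ← Finset.sum_add_distrib]
    refine Finset.sum_congr rfl (fun j _ => ?_)
    rw [bil_smul_left, bil_smul_right, ← h1 j]
    simp only [Pi.smul_apply, smul_eq_mul]
    ring
  rw [h2, Fintype.sum_sum_type]
  have h3 : ∑ j : ι₂, z (Sum.inr j) * cst K (T.β (T.p x) (T.p (Pi.single (Sum.inr j) 1))) k = 0 := by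
    refine Finset.sum_eq_zero (fun j _ => ?_)
    rw [p_single_inr hb, map_zero]
    simp [cst]
  rw [h3, add_zero]
  refine Finset.sum_congr rfl (fun i _ => ?_)
  rw [p_single_inl hb]

/-- job GP -/
theorem t_GP : S_GP.{u} := by
  intro K _ _ ι₁ ι₂ κ _ _ _ _ _ _ b T hB hb X Cc Dd C₁ hX hF
  obtain ⟨F, hFd⟩ : ∃ F, F = Matrix.fromBlocks (mat (1 + X)) 0 Cc Dd := ⟨_, rfl⟩
  rw [← hFd] at hF ⊢
  choose φ hφ using fun k : κ => hX (crd K k)
  let E : Matrix κ κ K := fun k l => φ k (Pi.single l 1)
  -- the upper part of `F - 1`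
  have hup : ∀ (x : ι₁ ⊕ ι₂ → ZMod 2) (i : ι₁),
      (F - 1).mulVec (cst K x) (Sum.inl i) = X (crd K i) (T.p x) := by
    intro x i
    rw [addfun_coord (X (crd K i)) (T.p x)]
    simp only [Matrix.mulVec, dotProduct]
    rw [Fintype.sum_sum_type]
    have h1 : ∑ j : ι₂, (F - 1) (Sum.inl i) (Sum.inr j) * cst K x (Sum.inr j) = 0 := by
      refine Finset.sum_eq_zero (fun j _ => ?_)
      rw [hFd, Matrix.sub_apply, Matrix.fromBlocks_apply₁₂]
      simp
    rw [h1, add_zero]
    refine Finset.sum_congr rfl (fun j _ => ?_)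
    have h2 : (F - 1) (Sum.inl i) (Sum.inl j) = X (crd K i) (Pi.single j 1) := by
      rw [hFd, Matrix.sub_apply, Matrix.fromBlocks_apply₁₁]
      show (crd K i) (Pi.single j 1) + X (crd K i) (Pi.single j 1) - _ = _
      have h3 : crd K i (Pi.single j (1 : ZMod 2)) = (1 : Matrix (ι₁ ⊕ ι₂) (ι₁ ⊕ ι₂) K)
          (Sum.inl i) (Sum.inl j) := by
        show cst K (Pi.single j (1 : ZMod 2)) i = _
        rw [cst_single, Matrix.one_apply]
        simp
      rw [h3, add_sub_cancel_left]
    have h4 : cst K (T.p x) j = cst K x (Sum.inl j) := by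
      show ZMod.castHom _ K (T.p x j) = _
      rw [hb.2]
      rfl
    rw [h2, h4, mul_comm]
  have hE : ∀ (x : ι₁ ⊕ ι₂ → ZMod 2) (k : κ), bil b (cst K x) ((F - 1).mulVec (cst K x)) k
      + bil b ((F - 1).mulVec (cst K x)) (cst K x) k = E.mulVec (qd b (cst K x)) k := by
    intro x k
    rw [polar_point hb]
    simp only [hup]
    have h1 : (crd K k).comp (T.β (T.p x))
        = ∑ i : ι₁, (cst K (T.β (T.p x) (Pi.single i 1)) k) • crd K i := by
      refine AddMonoidHom.ext (fun w => ?_)
      rw [addfun_coord ((crd K k).comp (T.β (T.p x))) w, AddMonoidHom.finsetSum_apply]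
      refine Finset.sum_congr rfl (fun i _ => ?_)
      rw [mul_comm]
      rfl
    have h2 : φ k (T.q x) = X ((crd K k).comp (T.β (T.p x))) (T.p x) := hφ k x
    rw [h1, map_sum, AddMonoidHom.finsetSum_apply] at h2
    have h3 : ∑ i : ι₁, X (crd K i) (T.p x) * cst K (T.β (T.p x) (Pi.single i 1)) k = φ k (T.q x) := by
      rw [h2]
      refine Finset.sum_congr rfl (fun i _ => ?_)
      rw [map_smul, AddMonoidHom.smul_apply, smul_eq_mul, mul_comm]
    rw [h3, addfun_coord (φ k) (T.q x), hb.1, qd_cst]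
    simp only [Matrix.mulVec, dotProduct, E]
    exact Finset.sum_congr rfl (fun l _ => mul_comm _ _)
  have hE' : ∀ (x : ι₁ ⊕ ι₂ → ZMod 2) (k : κ), qd b ((F - 1).mulVec (cst K x)) k
      = (C₁ - 1 - E).mulVec (qd b (cst K x)) k := by
    intro x k
    have h1 := hF (cst K x)
    have h2 : F.mulVec (cst K x) = cst K x + (F - 1).mulVec (cst K x) := by
      rw [Matrix.sub_mulVec, Matrix.one_mulVec]; abel
    rw [h2, qd_add] at h1
    have h3 := congrFun h1 k
    simp only [Pi.add_apply] at h3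
    rw [hE x k] at h3
    have h4 : (C₁ - 1 - E).mulVec (qd b (cst K x)) k = C₁.mulVec (qd b (cst K x)) k
        - qd b (cst K x) k - E.mulVec (qd b (cst K x)) k := by
      rw [Matrix.sub_mulVec, Matrix.sub_mulVec, Matrix.one_mulVec]
      rfl
    rw [h4, ← h3]
    ring
  have h5 : F = 1 + (F - 1) := by abel
  rw [h5]
  refine path_lie b (F - 1) E (C₁ - 1 - E) ?_ ?_
  · intro x
    exact qe_polar b (F - 1) E hE x
  · intro x
    exact qe_qd b (F - 1) (C₁ - 1 - E) hE' x

end

end Pool.Agent.Q222.MI2
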