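import Pool.Agent.Q12.MI2.Stm2

/-!
# Project MI2, jobs QE and PM
-/

set_option autoImplicit false

namespace Pool.Agent.Q222.MI2

open Finset Polynomial Q12.MI2

universe u v w

theorem cst_single {ι : Type*} [DecidableEq ι] (K : Type*) [Field K] [CharP K 2] (i j : ι) :
    cst K (Pi.single i (1 : ZMod 2)) j = if j = i then 1 else 0 := by
  unfold cst
  by_cases h : j = i
  · subst h; simp
  · simp [h]

theorem cst_add {ι : Type*} (K : Type*) [CommRing K] [CharP K 2] (x y : ι → ZMod 2) :
    cst K (x + y) = cst K x + cst K y := by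
  funext i
  simp [cst]

/-- the bilinear form of a matrix is additive -/
theorem qe_entries {K : Type*} [Field K] [CharP K 2] {ι : Type*} [Fintype ι] [DecidableEq ι]
    (D : Matrix ι ι K) (h : ∀ x : ι → ZMod 2, ∑ i, ∑ j, D i j * cst K x i * cst K x j = 0) :
    (∀ i, D i i = 0) ∧ (∀ i j, D i j + D j i = 0) := by
  have h1 : ∀ i, D i i = 0 := by
    intro i
    have := h (Pi.single i 1)
    simpa [cst_single] using this
  refine ⟨h1, fun i j => ?_⟩
  by_cases hij : i = j
  · subst hij; rw [h1, add_zero]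
  have h2 := h (Pi.single i 1 + Pi.single j 1)
  simp only [cst_add, Pi.add_apply, cst_single, mul_add, Finset.sum_add_distrib, mul_ite,
    mul_one, mul_zero, Finset.sum_ite_eq', Finset.mem_univ, if_true] at h2
  simp only [h1, zero_add, add_zero] at h2
  rw [add_comm] at h2
  simpa [add_comm] using h2

/-- job QE -/
theorem t_QE : S_QE.{u} := by
  intro K _ _ ι _ _ D h R _ _ x
  obtain ⟨h1, h2⟩ := qe_entries D h
  rw [← Finset.sum_product' (s := univ) (t := univ)
    (f := fun i j => algebraMap K R (D i j) * x i * x j)]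
  refine Finset.sum_involution (fun p _ => (p.2, p.1)) ?_ ?_ ?_ ?_
  · intro p _
    have h3 : algebraMap K R (D p.1 p.2) + algebraMap K R (D p.2 p.1) = 0 := by
      rw [← map_add, h2, map_zero]
    show algebraMap K R (D p.1 p.2) * x p.1 * x p.2 + algebraMap K R (D p.2 p.1) * x p.2 * x p.1 = 0
    linear_combination (x p.1 * x p.2) * h3
  · intro p _ hp heq
    apply hp
    have h4 : p.2 = p.1 := congrArg Prod.fst heq
    rw [h4, h1, map_zero, zero_mul, zero_mul]
  · intro p _
    exact Finset.mem_univ _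
  · intro p _
    rfl

/-- job PM -/
theorem t_PM : S_PM.{u} := by
  intro K _ ι κ _ _ _ _ b M₁ M₂ h₁ h₂
  obtain ⟨M, C, hq, h0, hC0, h1⟩ := h₁
  obtain ⟨M', C', hq', h0', hC0', h1'⟩ := h₂
  refine ⟨M * M', C * C', ?_, ?_, ?_, ?_⟩
  · intro x
    rw [← Matrix.mulVec_mulVec, hq, hq', Matrix.mulVec_mulVec]
  · have e : (M * M').map (eval 0) = M.map (eval 0) * M'.map (eval 0) := by
      rw [← coe_evalRingHom, Matrix.map_mul]
    rw [e, h0, h0', mul_one]
  · have e : (C * C').map (eval 0) = C.map (eval 0) * C'.map (eval 0) := by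
      rw [← coe_evalRingHom, Matrix.map_mul]
    rw [e, hC0, hC0', mul_one]
  · have e : (M * M').map (eval 1) = M.map (eval 1) * M'.map (eval 1) := by
      rw [← coe_evalRingHom, Matrix.map_mul]
    rw [e, h1, h1']

end Pool.Agent.Q222.MI2
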