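import Pool.Agent.Q222.MI2.Base

/-!
# Project MI2, job TP: elementary factors are joined to the identity
-/

set_option autoImplicit false
set_option linter.unusedSectionVars false

namespace Pool.Agent.Q222.MI2

open Finset Polynomial Q12.MI2

universe u v w

section

variable {K : Type u} [Field K] [CharP K 2] {ι₁ ι₂ κ : Type} [Fintype ι₁]
  [DecidableEq ι₁] [Fintype ι₂] [DecidableEq ι₂] [Fintype κ] [DecidableEq κ]
  {b : (ι₁ ⊕ ι₂) → (ι₁ ⊕ ι₂) → κ → ℤ}
  {T : Tor K (ι₁ → ZMod 2) (κ → ZMod 2) (ι₁ ⊕ ι₂ → ZMod 2)}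

/-- the polar form over `ZMod 2` -/
theorem beta_coord (hb : CoordTor b T) (x y : ι₁ ⊕ ι₂ → ZMod 2) :
    T.β (T.p x) (T.p y) = bil b x y + bil b y x := by
  have h1 := T.hq x y
  rw [hb.1, hb.1, hb.1, qd_add] at h1
  exact (add_left_cancel h1).symm

/-- the lift of a vector of `ι₁` -/
def up (ι₂ : Type*) {ι₁ R : Type*} [Zero R] (v : ι₁ → R) : ι₁ ⊕ ι₂ → R := Sum.elim v 0

theorem p_up (hb : CoordTor b T) (v : ι₁ → ZMod 2) : T.p (up ι₂ v) = v := by
  funext i
  rw [hb.2]; rfl

theorem lam_zero (K : Type*) [Field K] {V W : Type*} [AddCommGroup V] [AddCommGroup W]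
    (β : V →+ V →+ W) (v : V) : lam K β v 0 = 0 := by
  unfold lam
  rw [if_pos (map_zero _)]

theorem lam_add_of {K V W V₀ : Type*} [Field K] [CharP K 2] [AddCommGroup V]
    [Fintype V] [AddCommGroup W] [AddCommGroup V₀] (T : Tor K V W V₀) (v : V) (c : W)
    (hv : ∀ x, T.β v x = 0 ∨ T.β v x = c) (x y : V) :
    lam K T.β v (x + y) = lam K T.β v x + lam K T.β v y := by
  by_cases hc : c = 0
  · subst hc
    have h0 : ∀ z, T.β v z = 0 := fun z => (hv z).elim id id
    simp [lam, h0]
  · unfold lam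
    have h2 : (1 : K) + 1 = 0 := CharTwo.add_self_eq_zero 1
    rcases hv x with hx | hx <;> rcases hv y with hy | hy <;>
      simp [map_add, hx, hy, hc, T.hW c, h2]

theorem lam_sq (K : Type*) [Field K] {V W : Type*} [AddCommGroup V] [AddCommGroup W]
    (β : V →+ V →+ W) (v x : V) : lam K β v x ^ 2 = lam K β v x := by
  unfold lam
  split_ifs <;> simp

/-- `lam v` as an additive function -/
noncomputable def lamHom {K V W V₀ : Type*} [Field K] [CharP K 2] [AddCommGroup V]
    [Fintype V] [AddCommGroup W] [AddCommGroup V₀] (T : Tor K V W V₀) (v : V) (c : W)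
    (hv : ∀ x, T.β v x = 0 ∨ T.β v x = c) : V →+ K where
  toFun := lam K T.β v
  map_zero' := lam_zero K T.β v
  map_add' := lam_add_of T v c hv

theorem beta_lam {K V W V₀ : Type*} [Field K] [CharP K 2] [AddCommGroup V]
    [Fintype V] [AddCommGroup W] [AddCommGroup V₀] (T : Tor K V W V₀) (v : V) (c : W)
    (hv : ∀ x, T.β v x = 0 ∨ T.β v x = c) (φ : W →+ K) (x : V) :
    φ (T.β v x) = lam K T.β v x * φ c := by
  unfold lam
  split_ifs with h
  · rw [h, map_zero, zero_mul]
  · rw [(hv x).resolve_left h, one_mul]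

/-- the matrix of an elementary factor -/
theorem mat_trans (N : Module.End K ((ι₁ → ZMod 2) →+ K)) (a : (ι₁ → ZMod 2) → K)
    (hN : ∀ ζ x, N ζ x = ζ x + (∑ v, a v * ζ v) * (∑ v, a v * lam K T.β v x)) :
    (Matrix.fromBlocks (mat N) 0 0 1 : Matrix (ι₁ ⊕ ι₂) (ι₁ ⊕ ι₂) K)
      = 1 + Matrix.vecMulVec (up ι₂ (fun i => ∑ v, a v * cst K v i))
        (up ι₂ (fun j => ∑ v, a v * lam K T.β v (Pi.single j 1))) := by
  ext i j
  rcases i with i | i <;> rcases j with j | j
  · rw [Matrix.fromBlocks_apply₁₁, Matrix.add_apply, Matrix.vecMulVec_apply]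
    show N (crd K i) (Pi.single j 1) = _
    rw [hN]
    have h1 : crd K i (Pi.single j (1 : ZMod 2)) = (1 : Matrix (ι₁ ⊕ ι₂) (ι₁ ⊕ ι₂) K)
        (Sum.inl i) (Sum.inl j) := by
      show cst K (Pi.single j (1 : ZMod 2)) i = _
      rw [cst_single, Matrix.one_apply]
      simp
    rw [h1]
    rfl
  · rw [Matrix.fromBlocks_apply₁₂, Matrix.add_apply, Matrix.vecMulVec_apply]
    simp [up]
  · rw [Matrix.fromBlocks_apply₂₁, Matrix.add_apply, Matrix.vecMulVec_apply]
    simp [up]
  · rw [Matrix.fromBlocks_apply₂₂, Matrix.add_apply, Matrix.vecMulVec_apply]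
    simp [up, Matrix.one_apply]

theorem p_single_inr (hb : CoordTor b T) (i : ι₂) : T.p (Pi.single (Sum.inr i) 1) = 0 := by
  funext j
  rw [hb.2]; simp

theorem p_single_inl (hb : CoordTor b T) (i : ι₁) :
    T.p (Pi.single (Sum.inl i) 1) = Pi.single i 1 := by
  funext j
  rw [hb.2]
  by_cases h : j = i
  · subst h; simp
  · simp [h]

theorem Lx_eq (hb : CoordTor b T) (a : (ι₁ → ZMod 2) → K) (i : ι₁ ⊕ ι₂) :
    up ι₂ (fun j => ∑ v, a v * lam K T.β v (Pi.single j 1)) i
      = ∑ v, a v * lam K T.β v (T.p (Pi.single i 1)) := by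
  rcases i with i | i
  · rw [p_single_inl hb]; rfl
  · rw [p_single_inr hb]
    simp [up, lam_zero]

theorem Y_eq (a : (ι₁ → ZMod 2) → K) :
    up ι₂ (fun i => ∑ v, a v * cst K v i) = ∑ v, a v • cst K (up ι₂ v) := by
  funext i
  rw [Finset.sum_apply]
  rcases i with i | i
  · simp [up, cst]
  · simp [up, cst]

/-- job TP -/
theorem t_TP : S_TP.{u} := by
  intro K _ _ ι₁ ι₂ κ _ _ _ _ _ _ b T hB hb N hN
  obtain ⟨c, a, hva, hN⟩ := hN
  rw [mat_trans N a hN]
  have hex : ∀ v, ∃ φ : (κ → ZMod 2) →+ K, a v ≠ 0 → ∀ x, φ (T.q x) = lam K T.β v (T.p x) := by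
    intro v
    by_cases h : a v = 0
    · exact ⟨0, fun h' => absurd h h'⟩
    · obtain ⟨φ, hφ⟩ := (hva v h).2
      exact ⟨φ, fun _ => hφ⟩
  choose φ hφ using hex
  refine path_transv b _ _ (cst K c) (fun l => ∑ v, a v ^ 2 * φ v (Pi.single l 1)) ?_ ?_
  · intro i k
    have h1 := bil_comm_expand b (cst K (Pi.single i (1 : ZMod 2)))
      (up ι₂ (fun i => ∑ v, a v * cst K v i)) k
    have h2 : ∑ i', cst K (Pi.single i (1 : ZMod 2)) i' *
        ∑ j, up ι₂ (fun i => ∑ v, a v * cst K v i) j * ((b i' j k : K) + (b j i' k : K))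
        = ∑ j, up ι₂ (fun i => ∑ v, a v * cst K v i) j * ((b i j k : K) + (b j i k : K)) := by
      simp only [cst_single, ite_mul, one_mul, zero_mul, Finset.sum_ite_eq', Finset.mem_univ,
        if_true]
    rw [h2] at h1
    rw [← h1, Lx_eq hb, Y_eq, bil_sum_right, bil_sum_left, Finset.sum_apply, Finset.sum_apply,
      ← Finset.sum_add_distrib, Finset.sum_mul]
    refine Finset.sum_congr rfl (fun v _ => ?_)
    rw [bil_smul_left, bil_smul_right, bil_cst, bil_cst]
    simp only [Pi.smul_apply, smul_eq_mul]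
    by_cases hv : a v = 0
    · rw [hv]; ring
    · rw [← mul_add, mul_assoc]
      congr 1
      have h3 := beta_coord hb (up ι₂ v) (Pi.single i 1)
      rw [p_up hb] at h3
      have h4 := beta_lam T v c (hva v hv).1 (crd K k) (T.p (Pi.single i 1))
      rw [h3] at h4
      have h5 : crd K k (bil b (up ι₂ v) (Pi.single i 1) + bil b (Pi.single i 1) (up ι₂ v))
          = cst K (bil b (Pi.single i 1) (up ι₂ v)) k
            + cst K (bil b (up ι₂ v) (Pi.single i 1)) k := by
        rw [map_add, add_comm]; rfl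
      rw [h5] at h4
      exact h4
  · intro x
    have key := qe_scalar b
      (fun i j => up ι₂ (fun j => ∑ v, a v * lam K T.β v (Pi.single j 1)) i
        * up ι₂ (fun j => ∑ v, a v * lam K T.β v (Pi.single j 1)) j)
      (fun l => ∑ v, a v ^ 2 * φ v (Pi.single l 1)) (by
        intro y
        have h1 : ∑ i, ∑ j, up ι₂ (fun j => ∑ v, a v * lam K T.β v (Pi.single j 1)) i
            * up ι₂ (fun j => ∑ v, a v * lam K T.β v (Pi.single j 1)) j * cst K y i * cst K y j
            = (∑ i, up ι₂ (fun j => ∑ v, a v * lam K T.β v (Pi.single j 1)) i * cst K y i) ^ 2 := by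
          rw [pow_two, Finset.sum_mul_sum]
          refine Finset.sum_congr rfl (fun i _ => Finset.sum_congr rfl (fun j _ => ?_))
          ring
        have h2 : ∑ i, up ι₂ (fun j => ∑ v, a v * lam K T.β v (Pi.single j 1)) i * cst K y i
            = ∑ v, a v * lam K T.β v (T.p y) := by
          simp only [Lx_eq hb, Finset.sum_mul]
          rw [Finset.sum_comm]
          refine Finset.sum_congr rfl (fun v _ => ?_)
          by_cases hv : a v = 0
          · simp [hv]
          · have h3 := addfun_coord (((lamHom T v c (hva v hv).1)).comp T.p) y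
            have h4 : lam K T.β v (T.p y)
                = ∑ i, cst K y i * lam K T.β v (T.p (Pi.single i 1)) := h3
            rw [h4, Finset.mul_sum]
            refine Finset.sum_congr rfl (fun i _ => ?_)
            ring
        rw [h1, h2, sum_pow_char]
        have h5 : ∑ l, (∑ v, a v ^ 2 * φ v (Pi.single l 1)) * qd b (cst K y) l
            = ∑ v, a v ^ 2 * φ v (T.q y) := by
          simp only [Finset.sum_mul]
          rw [Finset.sum_comm]
          refine Finset.sum_congr rfl (fun v _ => ?_)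
          rw [addfun_coord (φ v) (T.q y), Finset.mul_sum]
          refine Finset.sum_congr rfl (fun l _ => ?_)
          rw [qd_cst, hb.1]
          ring
        rw [h5]
        refine Finset.sum_congr rfl (fun v _ => ?_)
        by_cases hv : a v = 0
        · simp [hv]
        · rw [hφ v hv, mul_pow, lam_sq]) x
    simp only [← C_eq_algebraMap] at key
    rw [← key, pow_two, Finset.sum_mul_sum]
    refine Finset.sum_congr rfl (fun i _ => Finset.sum_congr rfl (fun j _ => ?_))
    rw [C_mul]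
    ring

end

end Pool.Agent.Q222.MI2
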